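import Pool.Agent.TRE.St

/-!
# TRE, module AD1: appending the outside neighbours of a vertex as one part
-/

set_option autoImplicit false

namespace Pool.Agent.TRE

open Finset Pool.Agent.Lib_helper61.SwitchBasic Pool.Agent.TRC Pool.Agent.TRB Pool.Agent.TRD

namespace AD1

section

variable {α : Type} [DecidableEq α]

omit [DecidableEq α] in
theorem mem_nbo (C : SimpleGraph α) (K U : Finset α) (x w : α) :
    w ∈ nbo C K U x ↔ w ∈ K ∧ w ∉ U ∧ C.Adj x w := by
  classical
  simp [nbo]

omit [DecidableEq α] in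
theorem mem_im' (s : Equiv.Perm α) (S : Finset α) (x : α) : x ∈ im s S ↔ ∃ y ∈ S, s y = x := by
  rw [mem_im]
  constructor
  · intro h
    exact ⟨s⁻¹ x, h, by simp⟩
  · rintro ⟨y, hy, rfl⟩
    simpa using hy

/-- The vertices of a part have the same neighbours in `K` outside the part. -/
theorem part (C : SimpleGraph α) (K P : Finset α) (hP : OkPart C K P) {x x' w : α} (hx : x ∈ P)
    (hx' : x' ∈ P) (hw : w ∈ K) (hwP : w ∉ P) (h : C.Adj x w) : C.Adj x' w := by
  rcases hP with ⟨y, -, rfl⟩ | ⟨y, -, z, -, hyz, rfl, hh⟩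
  · rw [mem_singleton] at hx hx'
    rw [hx']
    rwa [hx] at h
  · rw [mem_insert, mem_singleton, not_or] at hwP
    rw [mem_insert, mem_singleton] at hx hx'
    have h1 := hh w hw hwP.1 hwP.2
    rcases hx with rfl | rfl <;> rcases hx' with rfl | rfl
    · exact h
    · exact h1.1 h
    · exact h1.2 h
    · exact h

/-- The image of the outside neighbours is determined by the images of the parts: one inclusion. -/
theorem sub (C : SimpleGraph α) (K : Finset α) (hK : ∀ s, IsAut C s → ∀ x, s x ∈ K ↔ x ∈ K)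
    (U : Finset α) {ι : Type} (P : ι → Finset α) (hP : ∀ i, OkPart C K (P i))
    (hU : ∀ x, x ∈ U ↔ ∃ i, x ∈ P i) (x : α) (hx : x ∈ U) (s s' : Equiv.Perm α)
    (hs : IsAut C s) (hs' : IsAut C s') (he : ∀ i, im s (P i) = im s' (P i)) :
    im s' (nbo C K U x) ⊆ im s (nbo C K U x) := by
  intro y hy
  obtain ⟨w, hw, rfl⟩ := (mem_im' s' _ y).1 hy
  obtain ⟨hwK, hwU, hxw⟩ := (mem_nbo C K U x w).1 hw
  obtain ⟨i, hi⟩ := (hU x).1 hx
  have h1 : s' x ∈ im s (P i) := by
    rw [he i]
    exact (mem_im' s' _ _).2 ⟨x, hi, rfl⟩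
  obtain ⟨x', hx', hxx⟩ := (mem_im' s _ _).1 h1
  have hsw : s (s⁻¹ (s' w)) = s' w := by simp
  refine (mem_im' s _ _).2 ⟨s⁻¹ (s' w), (mem_nbo C K U x _).2 ⟨?_, ?_, ?_⟩, hsw⟩
  · rw [← hK s hs, hsw, hK s' hs']
    exact hwK
  · intro hin
    obtain ⟨j, hj⟩ := (hU _).1 hin
    have h2 : s' w ∈ im s' (P j) := by
      rw [← he j]
      exact (mem_im' s _ _).2 ⟨_, hj, hsw⟩
    obtain ⟨w'', hw'', he2⟩ := (mem_im' s' _ _).1 h2
    rw [s'.injective he2] at hw''
    exact hwU ((hU w).2 ⟨j, hw''⟩)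
  · have hwK' : s⁻¹ (s' w) ∈ K := by
      rw [← hK s hs, hsw, hK s' hs']
      exact hwK
    have hwU' : s⁻¹ (s' w) ∉ P i := by
      intro hin
      have h2 : s' w ∈ im s' (P i) := by
        rw [← he i]
        exact (mem_im' s _ _).2 ⟨_, hin, hsw⟩
      obtain ⟨w'', hw'', he2⟩ := (mem_im' s' _ _).1 h2
      rw [s'.injective he2] at hw''
      exact hwU ((hU w).2 ⟨i, hw''⟩)
    have hadj : C.Adj x' (s⁻¹ (s' w)) := by
      rw [← hs, hsw, hxx, hs']
      exact hxw
    exact part C K (P i) (hP i) hx' hi hwK' hwU' hadj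

theorem eq (C : SimpleGraph α) (K : Finset α) (hK : ∀ s, IsAut C s → ∀ x, s x ∈ K ↔ x ∈ K)
    (U : Finset α) {ι : Type} (P : ι → Finset α) (hP : ∀ i, OkPart C K (P i))
    (hU : ∀ x, x ∈ U ↔ ∃ i, x ∈ P i) (x : α) (hx : x ∈ U) (s s' : Equiv.Perm α)
    (hs : IsAut C s) (hs' : IsAut C s') (he : ∀ i, im s (P i) = im s' (P i)) :
    im s (nbo C K U x) = im s' (nbo C K U x) :=
  Subset.antisymm (sub C K hK U P hP hU x hx s' s hs' hs fun i => (he i).symm)
    (sub C K hK U P hP hU x hx s s' hs hs' he)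

end

end AD1

open AD1 in
theorem t_AD1 : S_AD1 := by
  intro α _ _ C K hK U k q hF x hx hW
  obtain ⟨P, hP, hd, hU, hq⟩ := hF
  set W := nbo C K U x with hWd
  have hUW : Disjoint U W := by
    rw [disjoint_left]
    intro a ha haW
    exact ((mem_nbo C K U x a).1 haW).2.1 ha
  have hPU : ∀ i, P i ⊆ U := fun i a ha => (hU a).2 ⟨i, ha⟩
  refine ⟨Fin.snoc (α := fun _ => Finset α) P W, ?_, ?_, ?_, ?_⟩
  · intro i
    refine Fin.lastCases ?_ (fun j => ?_) i
    · rw [Fin.snoc_last]
      exact hW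
    · rw [Fin.snoc_castSucc]
      exact hP j
  · intro i
    refine Fin.lastCases ?_ (fun i' => ?_) i
    · intro j
      refine Fin.lastCases ?_ (fun j' => ?_) j
      · intro h
        exact absurd rfl h
      · intro _
        rw [Fin.snoc_last, Fin.snoc_castSucc]
        exact (hUW.mono_left (hPU j')).symm
    · intro j
      refine Fin.lastCases ?_ (fun j' => ?_) j
      · intro _
        rw [Fin.snoc_last, Fin.snoc_castSucc]
        exact hUW.mono_left (hPU i')
      · intro h
        rw [Fin.snoc_castSucc, Fin.snoc_castSucc]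
        exact hd i' j' fun e => h (by rw [e])
  · intro a
    rw [mem_union, hU]
    constructor
    · rintro (⟨i, hi⟩ | ha)
      · exact ⟨i.castSucc, by rw [Fin.snoc_castSucc]; exact hi⟩
      · exact ⟨Fin.last k, by rw [Fin.snoc_last]; exact ha⟩
    · rintro ⟨i, hi⟩
      revert hi
      refine Fin.lastCases ?_ (fun i' => ?_) i
      · rw [Fin.snoc_last]
        exact fun h => Or.inr h
      · rw [Fin.snoc_castSucc]
        exact fun h => Or.inl ⟨i', h⟩
  · refine le_trans ?_ hq
    refine Set.ncard_le_ncard_of_injOn (fun Φ : Fin (k + 1) → Finset α => fun i => Φ i.castSucc)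
      ?_ ?_ (Set.toFinite _)
    · rintro Φ ⟨s, hs, rfl⟩
      refine ⟨s, hs, ?_⟩
      funext i
      show im s (Fin.snoc (α := fun _ => Finset α) P W i.castSucc) = im s (P i)
      rw [Fin.snoc_castSucc]
    · rintro Φ ⟨s, hs, rfl⟩ Φ' ⟨s', hs', rfl⟩ h
      have he : ∀ i, im s (P i) = im s' (P i) := by
        intro i
        have h1 := congrFun h i
        have h2 : im s (Fin.snoc (α := fun _ => Finset α) P W i.castSucc) =
            im s' (Fin.snoc (α := fun _ => Finset α) P W i.castSucc) := h1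
        rwa [Fin.snoc_castSucc] at h2
      funext i
      refine Fin.lastCases ?_ (fun i' => ?_) i
      · show im s (Fin.snoc (α := fun _ => Finset α) P W (Fin.last k)) =
          im s' (Fin.snoc (α := fun _ => Finset α) P W (Fin.last k))
        rw [Fin.snoc_last]
        exact AD1.eq C K hK U P hP hU x hx s s' hs hs' he
      · show im s (Fin.snoc (α := fun _ => Finset α) P W i'.castSucc) =
          im s' (Fin.snoc (α := fun _ => Finset α) P W i'.castSucc)
        rw [Fin.snoc_castSucc]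
        exact he i'

end Pool.Agent.TRE
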