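import Pool.Agent.TRE.St

/-! TRE, module AD2. -/

set_option autoImplicit false

namespace Pool.Agent.TRE

open Finset Pool.Agent.Lib_helper61.SwitchBasic Pool.Agent.TRC Pool.Agent.TRB Pool.Agent.TRD

namespace AD2

variable {α : Type} [DecidableEq α] {C : SimpleGraph α} {K : Finset α}

omit [DecidableEq α] in
theorem mem_nbo {U : Finset α} {x w : α} : w ∈ nbo C K U x ↔ w ∈ K ∧ w ∉ U ∧ C.Adj x w := by
  classical
  simp [nbo]

omit [DecidableEq α] in
theorem mem_im_nbo (hK : ∀ s, IsAut C s → ∀ x, s x ∈ K ↔ x ∈ K) {s : Equiv.Perm α} (hs : IsAut C s)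
    (U : Finset α) (a w : α) : w ∈ im s (nbo C K U a) ↔ w ∈ K ∧ w ∉ im s U ∧ C.Adj (s a) w := by
  have h1 : s (s⁻¹ w) = w := by simp
  have h2 := hK s hs (s⁻¹ w)
  have h3 := hs a (s⁻¹ w)
  rw [h1] at h2 h3
  rw [mem_im, mem_nbo, mem_im, h2, h3]

theorem nbo_eq {U P : Finset α} (hP : OkPart C K P) (hPU : P ⊆ U) {x x' : α} (hx : x ∈ P)
    (hx' : x' ∈ P) : nbo C K U x' = nbo C K U x := by
  rcases hP with ⟨y, _, rfl⟩ | ⟨y, _, z, _, _, rfl, h⟩
  · rw [mem_singleton] at hx hx'
    rw [hx, hx']
  · have key : ∀ w ∈ K, w ∉ U → (C.Adj y w ↔ C.Adj z w) := by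
      intro w hw hwU
      refine h w hw ?_ ?_
      · rintro rfl
        exact hwU (hPU (by simp))
      · rintro rfl
        exact hwU (hPU (by simp))
    have e : nbo C K U y = nbo C K U z := by
      ext w
      rw [mem_nbo, mem_nbo]
      constructor
      · rintro ⟨a, b, c⟩
        exact ⟨a, b, (key w a b).1 c⟩
      · rintro ⟨a, b, c⟩
        exact ⟨a, b, (key w a b).2 c⟩
    rw [mem_insert, mem_singleton] at hx hx'
    rcases hx with rfl | rfl <;> rcases hx' with rfl | rfl <;> first | rfl | exact e | exact e.symm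

theorem im_nbo (hK : ∀ s, IsAut C s → ∀ x, s x ∈ K ↔ x ∈ K) {U : Finset α} {k : ℕ}
    {P : Fin k → Finset α} (hok : ∀ i, OkPart C K (P i)) (hU : ∀ x, x ∈ U ↔ ∃ i, x ∈ P i)
    {x : α} (hx : x ∈ U) {s s' : Equiv.Perm α} (hs : IsAut C s) (hs' : IsAut C s')
    (h : ∀ i, im s (P i) = im s' (P i)) : im s (nbo C K U x) = im s' (nbo C K U x) := by
  have hUU : im s U = im s' U := by
    ext w
    rw [mem_im, mem_im, hU, hU]
    constructor
    · rintro ⟨i, hi⟩
      refine ⟨i, ?_⟩
      rw [← mem_im, ← h i, mem_im]
      exact hi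
    · rintro ⟨i, hi⟩
      refine ⟨i, ?_⟩
      rw [← mem_im, h i, mem_im]
      exact hi
  obtain ⟨i, hi⟩ := (hU x).1 hx
  have h1 : s' x ∈ im s (P i) := by
    rw [h i, mem_im]
    simpa using hi
  rw [mem_im] at h1
  have h2 : s (s⁻¹ (s' x)) = s' x := by simp
  have hPU : P i ⊆ U := fun w hw => (hU w).2 ⟨i, hw⟩
  have h3 := nbo_eq (hok i) hPU hi h1
  rw [← h3]
  ext w
  rw [mem_im_nbo hK hs, h2, h3, mem_im_nbo hK hs', hUU]

end AD2

open AD2 in
theorem t_AD2 : S_AD2 := by
  intro α _ _ C K hK U k q hF x hx y z hyz hW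
  classical
  obtain ⟨P, hok, hdis, hU, hq⟩ := hF
  have hy : y ∈ nbo C K U x := by rw [hW]; simp
  have hz : z ∈ nbo C K U x := by rw [hW]; simp
  rw [mem_nbo] at hy hz
  have hPU : ∀ i, P i ⊆ U := fun i w hw => (hU w).2 ⟨i, hw⟩
  refine ⟨Fin.snoc (α := fun _ => Finset α) (Fin.snoc (α := fun _ => Finset α) P {y}) {z},
    ?_, ?_, ?_, ?_⟩
  · intro i
    refine Fin.lastCases ?_ (fun i => ?_) i
    · rw [Fin.snoc_last]
      exact Or.inl ⟨z, hz.1, rfl⟩
    · rw [Fin.snoc_castSucc]
      refine Fin.lastCases ?_ (fun i => ?_) i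
      · rw [Fin.snoc_last]
        exact Or.inl ⟨y, hy.1, rfl⟩
      · rw [Fin.snoc_castSucc]
        exact hok i
  · have hyP : ∀ i, Disjoint (P i) {y} := fun i => by
      rw [disjoint_singleton_right]
      exact fun h => hy.2.1 (hPU i h)
    have hzP : ∀ i, Disjoint (P i) {z} := fun i => by
      rw [disjoint_singleton_right]
      exact fun h => hz.2.1 (hPU i h)
    have hyz' : Disjoint ({y} : Finset α) {z} := by
      rw [disjoint_singleton]
      exact hyz
    intro i j
    refine Fin.lastCases ?_ (fun i => ?_) i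
    · refine Fin.lastCases ?_ (fun j => ?_) j
      · exact fun h => absurd rfl h
      · intro _
        rw [Fin.snoc_last, Fin.snoc_castSucc]
        refine Fin.lastCases ?_ (fun j => ?_) j
        · rw [Fin.snoc_last]
          exact hyz'.symm
        · rw [Fin.snoc_castSucc]
          exact (hzP j).symm
    · refine Fin.lastCases ?_ (fun j => ?_) j
      · intro _
        rw [Fin.snoc_last, Fin.snoc_castSucc]
        refine Fin.lastCases ?_ (fun i => ?_) i
        · rw [Fin.snoc_last]
          exact hyz'
        · rw [Fin.snoc_castSucc]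
          exact hzP i
      · rw [Fin.snoc_castSucc, Fin.snoc_castSucc]
        refine Fin.lastCases ?_ (fun i => ?_) i
        · refine Fin.lastCases ?_ (fun j => ?_) j
          · exact fun h => absurd rfl h
          · intro _
            rw [Fin.snoc_last, Fin.snoc_castSucc]
            exact (hyP j).symm
        · refine Fin.lastCases ?_ (fun j => ?_) j
          · intro _
            rw [Fin.snoc_last, Fin.snoc_castSucc]
            exact hyP i
          · intro h
            rw [Fin.snoc_castSucc, Fin.snoc_castSucc]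
            exact hdis i j (fun e => h (by rw [e]))
  · intro w
    rw [Fin.exists_fin_succ', Fin.snoc_last]
    simp only [Fin.snoc_castSucc]
    rw [Fin.exists_fin_succ', Fin.snoc_last]
    simp only [Fin.snoc_castSucc]
    rw [← hU]
    simp only [mem_union, mem_insert, mem_singleton]
    tauto
  · set S : Set (Fin k → Finset α) := {Φ | ∃ s, IsAut C s ∧ Φ = fun i => im s (P i)} with hS
    have hex : ∀ Φ : Fin k → Finset α, ∃ t : Equiv.Perm α, Φ ∈ S →
        IsAut C t ∧ Φ = fun i => im t (P i) := by
      intro Φ
      by_cases h : Φ ∈ S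
      · obtain ⟨s, h1⟩ := h
        exact ⟨s, fun _ => h1⟩
      · exact ⟨1, fun h' => absurd h' h⟩
    choose t ht using hex
    let res : (Fin (k + 2) → Finset α) → (Fin k → Finset α) := fun Φ i => Φ i.castSucc.castSucc
    let f : (Fin (k + 2) → Finset α) → (Fin k → Finset α) × Bool := fun Φ =>
      (res Φ, decide (Φ (Fin.last k).castSucc = im (t (res Φ)) {y}))
    have hcard : (S ×ˢ (Set.univ : Set Bool)).ncard ≤ 2 * q := by
      rw [Set.ncard_prod, Set.ncard_univ, Nat.card_eq_fintype_card, Fintype.card_bool, mul_comm]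
      exact Nat.mul_le_mul_left 2 hq
    refine le_trans (Set.ncard_le_ncard_of_injOn f ?_ ?_ (Set.toFinite _)) hcard
    · rintro Φ ⟨s, hs, rfl⟩
      refine Set.mem_prod.2 ⟨⟨s, hs, ?_⟩, Set.mem_univ _⟩
      funext i
      simp only [f, res, Fin.snoc_castSucc]
    · rintro Φ ⟨s, hs, rfl⟩ Φ' ⟨s', hs', rfl⟩ hff
      have hres : ∀ r : Equiv.Perm α, res (fun i => im r (Fin.snoc (α := fun _ => Finset α)
          (Fin.snoc (α := fun _ => Finset α) P {y}) {z} i : Finset α)) = fun i => im r (P i) := by
        intro r
        funext i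
        simp only [res, Fin.snoc_castSucc]
      obtain ⟨h1, h2⟩ := Prod.mk.inj hff
      rw [hres, hres] at h1
      rw [hres, hres, ← h1] at h2
      simp only [Fin.snoc_castSucc, Fin.snoc_last] at h2
      obtain ⟨ht1, ht2⟩ := ht (fun i => im s (P i)) ⟨s, hs, rfl⟩
      generalize t (fun i => im s (P i)) = r at ht1 ht2 h2
      have e1 : im s (nbo C K U x) = im r (nbo C K U x) :=
        im_nbo hK hok hU hx hs ht1 (fun i => congrFun ht2 i)
      have e2 : im s (nbo C K U x) = im s' (nbo C K U x) :=
        im_nbo hK hok hU hx hs hs' (fun i => congrFun h1 i)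
      rw [hW] at e1 e2
      have hone : ∀ (r : Equiv.Perm α) (a : α), im r {a} = {r a} := by
        intro r a
        unfold im
        rw [map_singleton]
        rfl
      have htwo : ∀ (r : Equiv.Perm α), im r ({y, z} : Finset α) = {r y, r z} := by
        intro r
        unfold im
        rw [map_insert, map_singleton]
        rfl
      rw [htwo, htwo] at e1 e2
      rw [hone, hone, hone] at h2
      have hb : (s y = r y ↔ s' y = r y) := by
        have := h2
        rw [decide_eq_decide] at this
        simpa using this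
      have hsy : s y = s' y ∧ s z = s' z := by
        have hne : s y ≠ s z := fun h => hyz (s.injective h)
        have hne' : s' y ≠ s' z := fun h => hyz (s'.injective h)
        have hner : r y ≠ r z := fun h => hyz (r.injective h)
        have m1 : s y = r y ∨ s y = r z := by
          have : s y ∈ ({r y, r z} : Finset α) := by rw [← e1]; simp
          simpa using this
        have m2 : s' y = s y ∨ s' y = s z := by
          have : s' y ∈ ({s y, s z} : Finset α) := by rw [e2]; simp
          simpa using this
        have m3 : s z = s' y ∨ s z = s' z := by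
          have : s z ∈ ({s' y, s' z} : Finset α) := by rw [← e2]; simp
          simpa using this
        have m4 : s z = r y ∨ s z = r z := by
          have : s z ∈ ({r y, r z} : Finset α) := by rw [← e1]; simp
          simpa using this
        have m5 : s y = s' y ∨ s y = s' z := by
          have : s y ∈ ({s' y, s' z} : Finset α) := by rw [← e2]; simp
          simpa using this
        rcases m2 with m2 | m2
        · refine ⟨m2.symm, ?_⟩
          rcases m3 with m3 | m3
          · exact absurd (m2.symm.trans m3.symm) hne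
          · exact m3
        · exfalso
          rcases m1 with m1 | m1
          · have := hb.1 m1
            exact hne (m1.trans (this.symm.trans m2))
          · rcases m4 with m4 | m4
            · have := hb.2 (m2.trans m4)
              exact hner (this.symm.trans m1)
            · exact hne (m1.trans m4.symm)
      funext i
      refine Fin.lastCases ?_ (fun i => ?_) i
      · rw [Fin.snoc_last, hone, hone, hsy.2]
      · rw [Fin.snoc_castSucc]
        refine Fin.lastCases ?_ (fun i => ?_) i
        · rw [Fin.snoc_last, hone, hone, hsy.1]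
        · rw [Fin.snoc_castSucc]
          exact congrFun h1 i

end Pool.Agent.TRE
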