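import Pool.Agent.TRE.St

/-! TRE BDY: boundaries. -/

set_option autoImplicit false

namespace Pool.Agent.TRE

open Finset Pool.Agent.Lib_helper61.SwitchBasic Pool.Agent.TRC Pool.Agent.TRB Pool.Agent.TRD

namespace BDY

variable {α : Type}

theorem mem_nbo {C : SimpleGraph α} {K U : Finset α} {x w : α} :
    w ∈ nbo C K U x ↔ w ∈ K ∧ w ∉ U ∧ C.Adj x w := by
  classical
  unfold nbo
  exact mem_filter

theorem mem_bd {C : SimpleGraph α} {K U : Finset α} {x : α} :
    x ∈ bd C K U ↔ x ∈ U ∧ ∃ w ∈ K, w ∉ U ∧ C.Adj x w := by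
  classical
  unfold bd
  refine mem_filter.trans (and_congr_right fun _ => ?_)
  constructor
  · rintro ⟨w, hw⟩
    exact ⟨w, mem_nbo.1 hw⟩
  · rintro ⟨w, hw⟩
    exact ⟨w, mem_nbo.2 hw⟩

/-- A new vertex is in the boundary. -/
theorem new [DecidableEq α] {C : SimpleGraph α} {K U : Finset α} {x y z : α}
    (h2 : 2 ≤ (nbo C K ∅ y).card) (hyz : ¬ C.Adj y z)
    (hU : ∀ u ∈ U, u ≠ x → ¬ C.Adj u y) :
    y ∈ bd C K (U ∪ {y, z}) := by
  obtain ⟨v, hv, hvx⟩ := exists_mem_ne (show 1 < (nbo C K ∅ y).card by omega) x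
  rw [mem_nbo] at hv
  obtain ⟨hvK, -, hyv⟩ := hv
  rw [mem_bd]
  refine ⟨by simp, v, hvK, ?_, hyv⟩
  rw [mem_union, mem_insert, mem_singleton]
  rintro (h | h | h)
  · exact hU v h hvx hyv.symm
  · exact C.irrefl (h ▸ hyv)
  · exact hyz (h ▸ hyv)

end BDY

theorem t_BDY : S_BDY := by
  intro α _ _ C K U hUK
  refine ⟨?_, ?_, ?_⟩
  · intro w hw
    have h : bd C K U ⊆ bd C K (insert w U) ∪ nbo C K ∅ w := by
      intro u hu
      rw [mem_union]
      by_contra hno
      rw [not_or, BDY.mem_bd, BDY.mem_nbo] at hno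
      obtain ⟨h1, h2⟩ := hno
      rw [BDY.mem_bd] at hu
      obtain ⟨huU, v, hvK, hvU, huv⟩ := hu
      by_cases hvw : v = w
      · exact h2 ⟨hUK huU, notMem_empty _, hvw ▸ huv.symm⟩
      · refine h1 ⟨mem_insert_of_mem huU, v, hvK, ?_, huv⟩
        rw [mem_insert, not_or]
        exact ⟨hvw, hvU⟩
    calc (bd C K U).card ≤ (bd C K (insert w U) ∪ nbo C K ∅ w).card := card_le_card h
      _ ≤ (bd C K (insert w U)).card + (nbo C K ∅ w).card := card_union_le _ _
      _ ≤ (bd C K (insert w U)).card + 3 := by omega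
  · intro y z hy hlost
    have h : bd C K U ⊆ bd C K (U ∪ {y, z}) ∪ nbo C K ∅ y := by
      intro u hu
      rw [mem_union]
      by_contra hno
      rw [not_or] at hno
      obtain ⟨h1, h2⟩ := hno
      have h3 := hlost u hu h1
      rw [BDY.mem_nbo] at h2
      exact h2 ⟨hUK (BDY.mem_bd.1 hu).1, notMem_empty _, h3.symm⟩
    calc (bd C K U).card ≤ (bd C K (U ∪ {y, z}) ∪ nbo C K ∅ y).card := card_le_card h
      _ ≤ (bd C K (U ∪ {y, z})).card + (nbo C K ∅ y).card := card_union_le _ _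
      _ ≤ (bd C K (U ∪ {y, z})).card + 3 := by omega
  · intro x hx y z hyz hN h2y h2z hnyz hU
    have hyN : y ∈ nbo C K U x := by rw [hN]; exact mem_insert_self _ _
    have hzN : z ∈ nbo C K U x := by rw [hN]; exact mem_insert_of_mem (mem_singleton_self _)
    rw [BDY.mem_nbo] at hyN hzN
    have hxB : x ∈ bd C K U := BDY.mem_bd.2 ⟨hx, y, hyN⟩
    have hyB : y ∈ bd C K (U ∪ {y, z}) := BDY.new h2y hnyz fun u hu hux => (hU u hu hux).1
    have hzB : z ∈ bd C K (U ∪ {y, z}) := by
      have h := BDY.new (y := z) (z := y) h2z (fun h => hnyz h.symm)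
        (fun u hu hux => (hU u hu hux).2)
      rwa [pair_comm z y] at h
    have hsub : (bd C K U).erase x ∪ {y, z} ⊆ bd C K (U ∪ {y, z}) := by
      intro u hu
      rw [mem_union, mem_erase, mem_insert, mem_singleton] at hu
      rcases hu with ⟨hux, hub⟩ | h | h
      · rw [BDY.mem_bd] at hub
        obtain ⟨huU, v, hvK, hvU, huv⟩ := hub
        rw [BDY.mem_bd]
        refine ⟨mem_union_left _ huU, v, hvK, ?_, huv⟩
        rw [mem_union, mem_insert, mem_singleton]
        rintro (h | h | h)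
        · exact hvU h
        · exact (hU u huU hux).1 (h ▸ huv)
        · exact (hU u huU hux).2 (h ▸ huv)
      · rw [h]; exact hyB
      · rw [h]; exact hzB
    have hdis : Disjoint ((bd C K U).erase x) ({y, z} : Finset α) := by
      rw [disjoint_left]
      intro u hu hu'
      have huU := (BDY.mem_bd.1 (mem_of_mem_erase hu)).1
      rw [mem_insert, mem_singleton] at hu'
      rcases hu' with h | h
      · exact hyN.2.1 (h ▸ huU)
      · exact hzN.2.1 (h ▸ huU)
    have h1 := card_le_card hsub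
    rw [card_union_of_disjoint hdis, card_erase_of_mem hxB, card_pair hyz] at h1
    have h3 : 0 < (bd C K U).card := card_pos.2 ⟨x, hxB⟩
    omega

end Pool.Agent.TRE
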