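import Pool.Agent.TRE.StG

set_option autoImplicit false

namespace Pool.Agent.TRE

open Finset Pool.Agent.Lib_helper61.SwitchBasic Pool.Agent.TRC Pool.Agent.TRB Pool.Agent.TRD

namespace BND

variable {α : Type} [DecidableEq α] {C : SimpleGraph α} {K : Finset α}

theorem sub {P : Finset α} (h : OkPart C K P) : P ⊆ K := by
  rcases h with ⟨y, hy, rfl⟩ | ⟨y, hy, z, hz, -, rfl, -⟩
  · intro x hx
    rw [mem_singleton] at hx
    rwa [hx]
  · intro x hx
    rw [mem_insert, mem_singleton] at hx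
    rcases hx with rfl | rfl
    · exact hy
    · exact hz

theorem ne {P : Finset α} (h : OkPart C K P) : P.Nonempty := by
  rcases h with ⟨y, hy, rfl⟩ | ⟨y, hy, z, hz, -, rfl, -⟩
  · exact singleton_nonempty y
  · exact insert_nonempty y {z}

end BND

open BND in
theorem t_BND : S_GLU → S_BND := by
  classical
  intro hGLU α _ _ C K T hC hT hA U k q hF hq
  obtain ⟨P, hP, hdis, -, hcard⟩ := hF
  intro t t' hdeck
  by_contra hne
  have hglue := Pool.Agent.RGP15.glue_sw C t (fun i => (P i).biUnion T)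
    (hGLU α C K T hC hT hA k P hP hdis)
  have hdisj : ∀ i j, i ≠ j → Disjoint ((P i).biUnion T) ((P j).biUnion T) := by
    intro i j hij
    rw [disjoint_left]
    intro x hx hx'
    obtain ⟨y, hy, hxy⟩ := mem_biUnion.1 hx
    obtain ⟨z, hz, hxz⟩ := mem_biUnion.1 hx'
    have hyz : y ≠ z := by
      rintro rfl
      exact disjoint_left.1 (hdis i j hij) hy hz
    exact disjoint_left.1 (hC.disj y (sub (hP i) hy) z (sub (hP j) hz) hyz) hxy hxz
  have hpos : ∀ i, 1 ≤ ((P i).biUnion T).card := by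
    intro i
    obtain ⟨y, hy⟩ := ne (hP i)
    exact card_pos.2 ⟨y, mem_biUnion.2 ⟨y, hy, hC.root y (sub (hP i) hy)⟩⟩
  have hb := Pool.Agent.RGP15.image_bound3 (sw C t) (sw C t') hdeck hne
    (fun i => (P i).biUnion T) hdisj hglue univ (fun i => ((P i).biUnion T).card) hpos
    (fun i _ => Or.inl le_rfl)
  have h1 : ∑ i : Fin k, (((P i).biUnion T).card : ℝ) / (((P i).biUnion T).card : ℝ) = k := by
    have : ∀ i ∈ (univ : Finset (Fin k)),
        (((P i).biUnion T).card : ℝ) / (((P i).biUnion T).card : ℝ) = 1 := by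
      intro i _
      have h0 : (0 : ℝ) < (((P i).biUnion T).card : ℝ) := by exact_mod_cast hpos i
      exact div_self h0.ne'
    rw [sum_congr rfl this]
    simp
  rw [h1] at hb
  set q' := (Pool.Agent.RGP15.Images (sw C t) (fun i => (P i).biUnion T)).ncard with hq'
  have hq1 : 1 ≤ q' := Pool.Agent.RGP15.images_pos (sw C t) _
  have hqq : q' ≤ q := by
    refine le_trans ?_ hcard
    have hsub : Pool.Agent.RGP15.Images (sw C t) (fun i => (P i).biUnion T) ⊆
        (fun Φ : Fin k → Finset α => fun i => (Φ i).biUnion T) ''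
          {Φ : Fin k → Finset α | ∃ s, IsAut C s ∧ Φ = fun i => im s (P i)} := by
      rintro Φ ⟨σ, hσ, rfl⟩
      have hσA : IsAut C σ := hA σ (Pool.Agent.RGP15.classAut_unsw C t σ hσ)
      refine ⟨fun i => im σ (P i), ⟨σ, hσA, rfl⟩, ?_⟩
      funext i
      ext x
      rw [mem_biUnion, mem_map_equiv, mem_biUnion]
      constructor
      · rintro ⟨y, hy, hxy⟩
        rw [mem_im] at hy
        have hyK := sub (hP i) hy
        have h2 := hC.invT σ hσA (σ⁻¹ y) hyK
        have h3 : σ (σ⁻¹ y) = y := σ.apply_symm_apply y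
        rw [h3] at h2
        rw [← h2, mem_im] at hxy
        exact ⟨σ⁻¹ y, hy, hxy⟩
      · rintro ⟨y, hy, hxy⟩
        refine ⟨σ y, ?_, ?_⟩
        · rw [mem_im]
          have h3 : σ⁻¹ (σ y) = y := σ.symm_apply_apply y
          rwa [h3]
        · rw [← hC.invT σ hσA y (sub (hP i) hy), mem_im]
          exact hxy
    exact (Set.ncard_le_ncard hsub (Set.toFinite _)).trans (Set.ncard_image_le (Set.toFinite _))
  have h2 : (2 : ℝ) ^ k ≤ (4 * q') ^ 2 := by
    have hq0 : (0 : ℝ) < 4 * (q' : ℝ) := by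
      have : (1 : ℝ) ≤ q' := by exact_mod_cast hq1
      linarith
    have h3 : (k : ℝ) ≤ Real.logb 2 ((4 * (q' : ℝ)) ^ 2) := by
      rw [Real.logb_pow]
      exact_mod_cast hb
    rw [Real.le_logb_iff_rpow_le (by norm_num) (by positivity), Real.rpow_natCast] at h3
    exact h3
  have h4 : 2 ^ k ≤ (4 * q') ^ 2 := by exact_mod_cast h2
  have h5 : (4 * q') ^ 2 ≤ (4 * q) ^ 2 := Nat.pow_le_pow_left (Nat.mul_le_mul_left 4 hqq) 2
  have h6 : (4 * q) ^ 2 = 16 * q ^ 2 := by ring
  omega

end Pool.Agent.TRE
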