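import Pool.Agent.TRE.St

set_option autoImplicit false

namespace Pool.Agent.TRE

open Finset Pool.Agent.Lib_helper61.SwitchBasic Pool.Agent.TRC Pool.Agent.TRB Pool.Agent.TRD

namespace CON

theorem third {α : Type} [DecidableEq α] (X : Finset α) (h : 3 ≤ X.card) (a b : α) :
    ∃ z ∈ X, z ≠ a ∧ z ≠ b := by
  have h1 : ({a, b} : Finset α).card < X.card := lt_of_le_of_lt Finset.card_le_two (by omega)
  obtain ⟨z, hz, hz'⟩ := Finset.exists_mem_notMem_of_card_lt_card h1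
  rw [Finset.mem_insert, Finset.mem_singleton, not_or] at hz'
  exact ⟨z, hz, hz'.1, hz'.2⟩

theorem cross {α : Type} (C : SimpleGraph α) (X : Finset α) (z : α)
    (h : (C.induce {v | v ∈ X ∧ v ≠ z}).Connected) (S : Set α) {u w : α} (hu : u ∈ X) (huz : u ≠ z)
    (huS : u ∈ S) (hw : w ∈ X) (hwz : w ≠ z) (hwS : w ∉ S) :
    ∃ a ∈ X, ∃ b ∈ X, a ∈ S ∧ b ∉ S ∧ b ≠ z ∧ C.Adj a b := by
  obtain ⟨p⟩ := h.preconnected (⟨u, hu, huz⟩ : {v | v ∈ X ∧ v ≠ z}) ⟨w, hw, hwz⟩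
  obtain ⟨d, -, hd1, hd2⟩ := p.exists_boundary_dart (Subtype.val ⁻¹' S) huS hwS
  exact ⟨d.fst.1, d.fst.2.1, d.snd.1, d.snd.2.1, hd1, hd2, d.snd.2.2, d.adj⟩

end CON

theorem t_CON : S_CON := by
  intro α _ _ C X hX hC
  refine ⟨fun x hx => ?_, fun U hU hUn hUX => ?_⟩
  · obtain ⟨z, hz, hzx, -⟩ := CON.third X hX x x
    obtain ⟨y', hy', hy'x, hy'z⟩ := CON.third X hX x z
    obtain ⟨a, -, y, hy, ha, hyx, -, hay⟩ := CON.cross C X z (hC z hz) {x} hx (Ne.symm hzx)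
      (Set.mem_singleton x) hy' hy'z (fun h => hy'x h)
    have ha' : a = x := ha
    subst ha'
    obtain ⟨w, hw, hwx, hwy⟩ := CON.third X hX a y
    obtain ⟨b, -, z', hz', hb, hzx', hzy', hbz⟩ := CON.cross C X y (hC y hy) {a} hx
      (fun h => hyx h.symm) (Set.mem_singleton a) hw hwy (fun h => hwx h)
    have hb' : b = a := hb
    subst hb'
    exact ⟨y, hy, z', hz', Ne.symm hzy', hay, hbz⟩
  · obtain ⟨u, hu⟩ := hUn
    obtain ⟨w, hw, hwU⟩ : ∃ w ∈ X, w ∉ U := by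
      by_contra hcon
      push Not at hcon
      exact hUX (Finset.Subset.antisymm hU hcon)
    obtain ⟨z, hz, hzu, hzw⟩ := CON.third X hX u w
    obtain ⟨a, -, b, hb, haU, hbU, -, hab⟩ := CON.cross C X z (hC z hz) (U : Set α) (hU hu)
      (Ne.symm hzu) hu hw (Ne.symm hzw) hwU
    exact ⟨a, haU, b, hb, hbU, hab⟩

end Pool.Agent.TRE
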