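import Pool.Agent.TRE.St

set_option autoImplicit false

namespace Pool.Agent.TRE

open Finset Pool.Agent.Lib_helper61.SwitchBasic Pool.Agent.TRC Pool.Agent.TRB Pool.Agent.TRD

namespace EXP

theorem mem_nbo {α : Type} (C : SimpleGraph α) (K U : Finset α) (x w : α) :
    w ∈ nbo C K U x ↔ w ∈ K ∧ w ∉ U ∧ C.Adj x w := by
  classical
  unfold nbo
  rw [Finset.mem_filter]

theorem mem_bd {α : Type} (C : SimpleGraph α) (K U : Finset α) (x : α) :
    x ∈ bd C K U ↔ x ∈ U ∧ (nbo C K U x).Nonempty := by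
  classical
  unfold bd
  rw [Finset.mem_filter]

theorem go (hP : S_STP) {α : Type} [Fintype α] [DecidableEq α] (C : SimpleGraph α) (K X : Finset α)
    (hK : ∀ s, IsAut C s → ∀ x, s x ∈ K ↔ x ∈ K) (hX : X ⊆ K)
    (hc : ∀ x ∈ X, ∀ w ∈ K, C.Adj x w → w ∈ X)
    (hd : ∀ x ∈ X, 2 ≤ (nbo C K ∅ x).card ∧ (nbo C K ∅ x).card ≤ 3)
    (hcon : ∀ U ⊆ X, U.Nonempty → U ≠ X → ∃ u ∈ U, ∃ w ∈ X, w ∉ U ∧ C.Adj u w) :
    ∀ (n : ℕ) (U : Finset α) (k e : ℕ), X.card ≤ U.card + n → U ⊆ X → U.Nonempty →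
      (∀ u ∈ U, ∃ v ∈ U, C.Adj u v) → Fam C K U k (2 ^ e * K.card ^ 2) →
      U.card + 28 + 30 * e ≤ 15 * k + 2 * (bd C K U).card →
      ∃ k e : ℕ, Fam C K X k (2 ^ e * K.card ^ 2) ∧ X.card + 28 + 30 * e ≤ 15 * k := by
  intro n
  induction n with
  | zero =>
    intro U k e hn hU _ _ hF hI
    have hUX : U = X := Finset.eq_of_subset_of_card_le hU (by omega)
    subst hUX
    have hb : bd C K U = ∅ := by
      rw [Finset.eq_empty_iff_forall_notMem]
      intro x hx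
      rw [mem_bd] at hx
      obtain ⟨hxU, w, hw⟩ := hx
      rw [mem_nbo] at hw
      exact hw.2.1 (hc x hxU w hw.1 hw.2.2)
    rw [hb, Finset.card_empty] at hI
    exact ⟨k, e, hF, by omega⟩
  | succ n ih =>
    intro U k e hn hU hne hnb hF hI
    by_cases hUX : U = X
    · exact ih U k e (by rw [hUX]; omega) hU hne hnb hF hI
    · obtain ⟨u, huU, w, hwX, hwU, huw⟩ := hcon U hU hne hUX
      have hbne : (bd C K U).Nonempty :=
        ⟨u, (mem_bd C K U u).2 ⟨huU, ⟨w, (mem_nbo C K U u w).2 ⟨hX hwX, hwU, huw⟩⟩⟩⟩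
      obtain ⟨U', k', e', hss, hU', hnb', hF', hI'⟩ :=
        hP α C K X hK hX hc hd U k (2 ^ e * K.card ^ 2) hU hnb hF hbne
      have hlt : U.card < U'.card := Finset.card_lt_card hss
      refine ih U' k' (e' + e) (by omega) hU' (hne.mono hss.1) hnb' ?_ (by omega)
      have h2 : 2 ^ (e' + e) * K.card ^ 2 = 2 ^ e' * (2 ^ e * K.card ^ 2) := by
        rw [pow_add, mul_assoc]
      rw [h2]
      exact hF'

end EXP

theorem t_EXP (hS : S_STA) (hP : S_STP) : S_EXP := by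
  intro α _ _ C K X hK hX hc hd hne hcon
  obtain ⟨x, hx⟩ := hne
  have h2 : 0 < (nbo C K ∅ x).card := by
    have := (hd x hx).1
    omega
  obtain ⟨y, hy⟩ := Finset.card_pos.1 h2
  rw [EXP.mem_nbo] at hy
  have hyX : y ∈ X := hc x hx y hy.1 hy.2.2
  have hxy : x ≠ y := hy.2.2.ne
  have hsub : ({x, y} : Finset α) ⊆ X := by
    intro z hz
    rw [Finset.mem_insert, Finset.mem_singleton] at hz
    rcases hz with rfl | rfl
    · exact hx
    · exact hyX
  refine EXP.go hP C K X hK hX hc hd hcon X.card {x, y} 2 0 (by omega) hsub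
    ⟨x, Finset.mem_insert_self x _⟩ ?_ ?_ ?_
  · intro u hu
    rw [Finset.mem_insert, Finset.mem_singleton] at hu
    rcases hu with rfl | rfl
    · exact ⟨y, Finset.mem_insert_of_mem (Finset.mem_singleton_self y), hy.2.2⟩
    · exact ⟨x, Finset.mem_insert_self x _, hy.2.2.symm⟩
  · have := hS α C K hK x (hX hx) y (hX hyX) hxy
    rw [pow_zero, one_mul]
    exact this
  · rw [Finset.card_pair hxy]
    omega

end Pool.Agent.TRE
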