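import Pool.Agent.TRE.StG

set_option autoImplicit false

namespace Pool.Agent.TRE

open Finset Pool.Agent.Lib_helper61.SwitchBasic Pool.Agent.TRC Pool.Agent.TRB Pool.Agent.TRD

namespace GLU

variable {α : Type} [DecidableEq α] {C : SimpleGraph α} {K : Finset α}

theorem sub {P : Finset α} (h : OkPart C K P) : P ⊆ K := by
  rcases h with ⟨y, hy, rfl⟩ | ⟨y, hy, z, hz, -, rfl, -⟩
  · intro x hx
    rw [mem_singleton] at hx
    rwa [hx]
  · intro x hx
    rw [mem_insert, mem_singleton] at hx
    rcases hx with rfl | rfl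
    · exact hy
    · exact hz

/-- two different vertices of a part are twins -/
theorem twin {P : Finset α} (h : OkPart C K P) {x x' : α} (hx : x ∈ P) (hx' : x' ∈ P)
    (hne : x ≠ x') (w : α) (hw : w ∈ K) (h1 : w ∉ P) : C.Adj x w ↔ C.Adj x' w := by
  rcases h with ⟨y, hy, rfl⟩ | ⟨y, hy, z, hz, hyz, rfl, ht⟩
  · rw [mem_singleton] at hx hx'
    exact absurd (hx.trans hx'.symm) hne
  · rw [mem_insert, mem_singleton] at hx hx' h1
    push Not at h1
    rcases hx with rfl | rfl
    · rcases hx' with rfl | rfl
      · exact absurd rfl hne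
      · exact ht w hw h1.1 h1.2
    · rcases hx' with rfl | rfl
      · exact (ht w hw h1.1 h1.2).symm
      · exact absurd rfl hne

end GLU

open GLU in
theorem t_GLU : S_GLU := by
  intro α _ _ C K T hC hT hA k P hP hdis τ hτ hM i κ hin hout
  have hτA : IsAut C τ := hA τ hτ
  have hMi : ∀ x, x ∈ (P i).biUnion T ↔ ∃ y ∈ P i, x ∈ T y := fun x => mem_biUnion
  -- `τ` preserves `P i`
  have hPi : ∀ y ∈ P i, τ y ∈ P i := by
    intro y hy
    have hyK : y ∈ K := sub (hP i) hy
    have h1 : y ∈ (P i).biUnion T := (hMi y).2 ⟨y, hy, hC.root y hyK⟩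
    have h2 := (hMi _).1 ((hM i y).2 h1)
    obtain ⟨z, hz, hτz⟩ := h2
    have hτK : τ y ∈ K := (hC.invK τ hτA y).2 hyK
    by_contra hcon
    have hne : z ≠ τ y := fun e => hcon (e ▸ hz)
    exact disjoint_left.1 (hC.disj z (sub (hP i) hz) (τ y) hτK hne) hτz (hC.root _ hτK)
  have hκ : IsAut C κ := by
    -- the mixed case
    have key : ∀ u v, u ∈ (P i).biUnion T → v ∉ (P i).biUnion T →
        (C.Adj (τ u) v ↔ C.Adj u v) := by
      intro u v hu hv
      obtain ⟨y, hy, huy⟩ := (hMi u).1 hu
      have hyK : y ∈ K := sub (hP i) hy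
      have hτK : τ y ∈ K := (hC.invK τ hτA y).2 hyK
      have hvT : ∀ z ∈ P i, v ∉ T z := fun z hz h => hv ((hMi v).2 ⟨z, hz, h⟩)
      have hvP : v ∉ P i := fun h => hvT v h (hC.root v (sub (hP i) h))
      by_cases huy' : u = y
      · subst huy'
        by_cases hfix : τ u = u
        · rw [hfix]
        · have ht := twin (hP i) (hPi u hy) hy hfix v
          constructor
          · intro h
            rcases hT.nb (τ u) hτK v h with h1 | h1
            · exact absurd h1 (hvT _ (hPi u hy))
            · exact (ht h1 hvP).1 h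
          · intro h
            rcases hT.nb u hyK v h with h1 | h1
            · exact absurd h1 (hvT _ hy)
            · exact (ht h1 hvP).2 h
      · constructor
        · intro h
          have h1 : τ u ∈ T (τ y) := by
            rw [← hC.invT τ hτA y hyK, mem_im]
            show τ.symm (τ u) ∈ T y
            rw [Equiv.symm_apply_apply]
            exact huy
          exact absurd (hT.edge (τ y) hτK (τ u) h1 (fun e => huy' (τ.injective e)) v h)
            (hvT _ (hPi y hy))
        · intro h
          exact absurd (hT.edge y hyK u huy huy' v h) (hvT y hy)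
    intro u v
    by_cases hu : u ∈ (P i).biUnion T
    · by_cases hv : v ∈ (P i).biUnion T
      · rw [hin u hu, hin v hv]
        exact hτA u v
      · rw [hin u hu, hout v hv]
        exact key u v hu hv
    · by_cases hv : v ∈ (P i).biUnion T
      · rw [hout u hu, hin v hv, C.adj_comm, key v u hv hu, C.adj_comm]
      · rw [hout u hu, hout v hv]
  refine ⟨∅, fun u v => ?_⟩
  rw [sw_empty]
  exact hκ u v

end Pool.Agent.TRE
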