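import Pool.Agent.TRE.St

/-!
# TRE: the numerical inequality
-/

set_option autoImplicit false

namespace Pool.Agent.TRE

open Finset Pool.Agent.Lib_helper61.SwitchBasic Pool.Agent.TRC Pool.Agent.TRB Pool.Agent.TRD

namespace NUM

theorem step (a : ℕ) (ha : 662 ≤ a) : (a + 15) ^ 4 ≤ 2 * a ^ 4 := by
  obtain ⟨b, rfl⟩ := Nat.exists_eq_add_of_le ha
  have h1 : (0 : ℤ) ≤ b := Int.natCast_nonneg b
  have h2 : ((662 + b + 15 : ℕ) : ℤ) ^ 4 ≤ 2 * ((662 + b : ℕ) : ℤ) ^ 4 := by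
    push_cast
    nlinarith [mul_nonneg h1 h1, mul_nonneg (mul_nonneg h1 h1) h1,
      mul_nonneg (mul_nonneg h1 h1) (mul_nonneg h1 h1)]
  exact_mod_cast h2

theorem big (i : ℕ) : 256 * (662 + 15 * i) ^ 4 < 2 ^ (46 + i) := by
  induction i with
  | zero => norm_num
  | succ i ih =>
    have h := step (662 + 15 * i) (by omega)
    have e : 662 + 15 * (i + 1) = 662 + 15 * i + 15 := by ring
    have e2 : 2 ^ (46 + (i + 1)) = 2 * 2 ^ (46 + i) := by
      rw [← add_assoc, pow_succ]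
      ring
    rw [e, e2]
    omega

end NUM

theorem t_NUM : S_NUM := by
  intro m n k e hm hn hk
  obtain ⟨i, rfl⟩ : ∃ i, k = 2 * e + (46 + i) := ⟨k - (2 * e + 46), by omega⟩
  have h1 : m ≤ 662 + 15 * i := by omega
  have h2 := NUM.big i
  have h3 : n ^ 4 ≤ (2 * m) ^ 4 := Nat.pow_le_pow_left hn 4
  have h4 : m ^ 4 ≤ (662 + 15 * i) ^ 4 := Nat.pow_le_pow_left h1 4
  have h5 : 16 * n ^ 4 < 2 ^ (46 + i) := by
    have : (2 * m) ^ 4 = 16 * m ^ 4 := by ring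
    omega
  have e1 : 16 * (2 ^ e * n ^ 2) ^ 2 = 2 ^ (2 * e) * (16 * n ^ 4) := by
    rw [mul_pow, ← pow_mul, mul_comm e 2]
    ring
  rw [e1, pow_add 2 (2 * e) (46 + i)]
  exact Nat.mul_lt_mul_of_pos_left h5 (by positivity)

end Pool.Agent.TRE
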