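import Pool.Agent.TRE.St

/-!
TRE, module OTH (helper79, for helper68).
-/

set_option autoImplicit false

namespace Pool.Agent.TRE

open Finset Pool.Agent.Lib_helper61.SwitchBasic Pool.Agent.TRC Pool.Agent.TRB Pool.Agent.TRD

namespace OTH

theorem mem_nbo {α : Type} [DecidableEq α] {C : SimpleGraph α} {K U : Finset α} {x w : α} :
    w ∈ nbo C K U x ↔ w ∈ K ∧ w ∉ U ∧ C.Adj x w := by
  classical
  unfold nbo
  simp only [mem_filter]

/-- Two neighbours in `U'` leave at most one outside. -/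
theorem small {α : Type} [DecidableEq α] {C : SimpleGraph α} {K U' : Finset α} {y x t : α}
    (hc : (nbo C K ∅ y).card ≤ 3) (hxK : x ∈ K) (htK : t ∈ K) (hx : x ∈ U') (ht : t ∈ U')
    (hxt : x ≠ t) (ax : C.Adj y x) (at' : C.Adj y t)
    (h1 : (nbo C K U' y).card ≠ 1) : nbo C K U' y = ∅ := by
  have hsub : insert x (insert t (nbo C K U' y)) ⊆ nbo C K ∅ y := by
    intro w hw
    rw [mem_insert, mem_insert] at hw
    rw [mem_nbo]
    rcases hw with rfl | rfl | hw
    · exact ⟨hxK, notMem_empty _, ax⟩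
    · exact ⟨htK, notMem_empty _, at'⟩
    · exact ⟨(mem_nbo.1 hw).1, notMem_empty _, (mem_nbo.1 hw).2.2⟩
  have h2 : t ∉ nbo C K U' y := fun h => (mem_nbo.1 h).2.1 ht
  have h3 : x ∉ insert t (nbo C K U' y) := by
    rw [mem_insert]
    rintro (h | h)
    · exact hxt h
    · exact (mem_nbo.1 h).2.1 hx
  have h4 := card_le_card hsub
  rw [card_insert_of_notMem h3, card_insert_of_notMem h2] at h4
  exact card_eq_zero.1 (by omega)

/-- A vertex adjacent to `y` is adjacent to `z`. -/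
theorem both {α : Type} [DecidableEq α] {C : SimpleGraph α} {K U : Finset α} {y z u : α}
    (hyK : y ∈ K) (hyU : y ∉ U) (h2 : (nbo C K U u).card ≤ 2) (h1 : (nbo C K U u).card ≠ 1)
    (h1' : (nbo C K (U ∪ {y, z}) u).card ≠ 1) (ay : C.Adj u y) : C.Adj u z := by
  by_contra hz
  have hy : y ∈ nbo C K U u := mem_nbo.2 ⟨hyK, hyU, ay⟩
  have he : nbo C K (U ∪ {y, z}) u = (nbo C K U u).erase y := by
    ext w
    rw [mem_erase, mem_nbo, mem_nbo]
    simp only [mem_union, mem_insert, mem_singleton]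
    constructor
    · rintro ⟨hK, hU, ha⟩
      exact ⟨fun h => hU (Or.inr (Or.inl h)), hK, fun h => hU (Or.inl h), ha⟩
    · rintro ⟨hne, hK, hU, ha⟩
      refine ⟨hK, ?_, ha⟩
      rintro (h | h | h)
      · exact hU h
      · exact hne h
      · exact hz (h ▸ ha)
  rw [he, card_erase_of_mem hy] at h1'
  have := card_pos.2 ⟨y, hy⟩
  omega

end OTH

open OTH in
/-- **OTH**. -/
theorem t_OTH : S_OTH := by
  intro α _ _ C K U hUK x hx y z hyz hN h1 h2 hy3 hz3 htw hfur
  by_contra hcon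
  have hno : ∀ v ∈ U ∪ {y, z}, (nbo C K (U ∪ {y, z}) v).card ≠ 1 := fun v hv h =>
    hcon ⟨v, hv, h⟩
  have hyN : y ∈ nbo C K U x := by
    rw [hN]
    exact mem_insert_self _ _
  have hzN : z ∈ nbo C K U x := by
    rw [hN]
    exact mem_insert_of_mem (mem_singleton_self _)
  obtain ⟨hyK, hyU, hxy⟩ := mem_nbo.1 hyN
  obtain ⟨hzK, hzU, hxz⟩ := mem_nbo.1 hzN
  have hxK := hUK hx
  have hUU : ∀ u ∈ U, u ∈ U ∪ {y, z} := fun u hu => mem_union_left _ hu
  have hyU' : y ∈ U ∪ {y, z} := mem_union_right _ (mem_insert_self _ _)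
  have hzU' : z ∈ U ∪ {y, z} := mem_union_right _ (mem_insert_of_mem (mem_singleton_self _))
  have hpair : U ∪ {z, y} = U ∪ {y, z} := by rw [pair_comm]
  have c1 : ∀ u ∈ U, C.Adj u y → C.Adj u z := fun u hu h =>
    both hyK hyU (h2 u hu) (h1 u hu) (hno u (hUU u hu)) h
  have c2 : ∀ u ∈ U, C.Adj u z → C.Adj u y := fun u hu h =>
    both hzK hzU (h2 u hu) (h1 u hu) (by rw [hpair]; exact hno u (hUU u hu)) h
  have key : nbo C K (U ∪ {y, z}) y = ∅ ∧ nbo C K (U ∪ {y, z}) z = ∅ := by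
    rcases hfur with h | ⟨u, hu, hux, h⟩
    · refine ⟨small hy3 hxK hzK (hUU x hx) hzU' ?_ hxy.symm h (hno y hyU'),
        small hz3 hxK hyK (hUU x hx) hyU' ?_ hxz.symm h.symm (hno z hzU')⟩
      · rintro rfl
        exact hzU hx
      · rintro rfl
        exact hyU hx
    · have hb : C.Adj u y ∧ C.Adj u z := by
        rcases h with h | h
        · exact ⟨h, c1 u hu h⟩
        · exact ⟨c2 u hu h, h⟩
      exact ⟨small hy3 hxK (hUK hu) (hUU x hx) (hUU u hu) (Ne.symm hux) hxy.symm hb.1.symm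
          (hno y hyU'),
        small hz3 hxK (hUK hu) (hUU x hx) (hUU u hu) (Ne.symm hux) hxz.symm hb.2.symm
          (hno z hzU')⟩
  have hin : ∀ w ∈ K, w ≠ y → w ≠ z → ∀ t, nbo C K (U ∪ {y, z}) t = ∅ → C.Adj t w → w ∈ U := by
    intro w hw hwy hwz t ht ha
    by_contra hwU
    have : w ∈ nbo C K (U ∪ {y, z}) t := by
      refine mem_nbo.2 ⟨hw, ?_, ha⟩
      simp only [mem_union, mem_insert, mem_singleton]
      rintro (h | h | h)
      · exact hwU h
      · exact hwy h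
      · exact hwz h
    rw [ht] at this
    exact notMem_empty _ this
  refine htw fun w hw hwy hwz => ⟨fun h => ?_, fun h => ?_⟩
  · exact (c1 w (hin w hw hwy hwz y key.1 h) h.symm).symm
  · exact (c2 w (hin w hw hwy hwz z key.2 h) h.symm).symm

end Pool.Agent.TRE
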