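import Pool.Agent.TRE.St
import Pool.Agent.TRD.MCEO

set_option autoImplicit false

namespace Pool.Agent.TRE

open Finset Pool.Agent.Lib_helper61.SwitchBasic Pool.Agent.TRC Pool.Agent.TRB Pool.Agent.TRD

namespace SEL

open Pool.Agent.TRD.CEO

variable {α : Type} [Fintype α]

open Classical in
/-- The centre of the component of `o`. -/
noncomputable def ctr (C : SimpleGraph α) (o : α) : Finset α :=
  (cpt C o).filter fun b => Cen C b

theorem mem_ctr {C : SimpleGraph α} {o b : α} : b ∈ ctr C o ↔ b ∈ cpt C o ∧ Cen C b := by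
  simp [ctr]

theorem ctr_eq {C : SimpleGraph α} {o o' : α} (h : cpt C o' = cpt C o) :
    ctr C o' = ctr C o := by
  ext b
  rw [mem_ctr, mem_ctr, h]

theorem self_mem (C : SimpleGraph α) (o : α) : o ∈ cpt C o :=
  mem_cpt.2 (SimpleGraph.Reachable.refl _)

theorem two (C : SimpleGraph α) (o : α) (ho : Fintype.card α ≤ 2 * (cpt C o).card) :
    ∃ o', Fintype.card α ≤ 2 * (cpt C o').card ∧ ∀ o'', Fintype.card α ≤ 2 * (cpt C o'').card →
      cpt C o'' = cpt C o ∨ cpt C o'' = cpt C o' := by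
  classical
  by_cases h : ∀ o'', Fintype.card α ≤ 2 * (cpt C o'').card → o'' ∈ cpt C o
  · exact ⟨o, ho, fun o'' h'' => Or.inl (cpt_eq (h o'' h''))⟩
  · push Not at h
    obtain ⟨o', ho', hn⟩ := h
    refine ⟨o', ho', fun o'' _ => ?_⟩
    have hd : Disjoint (cpt C o) (cpt C o') := by
      rw [disjoint_left]
      intro v hv hv'
      apply hn
      rw [mem_cpt] at hv hv' ⊢
      exact hv.trans hv'.symm
    have hc := card_union_of_disjoint hd
    have hu : cpt C o ∪ cpt C o' = univ := by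
      apply eq_univ_of_card
      have := card_le_univ (cpt C o ∪ cpt C o')
      omega
    have hm : o'' ∈ cpt C o ∪ cpt C o' := by rw [hu]; exact mem_univ _
    rcases mem_union.1 hm with h1 | h1
    · exact Or.inl (cpt_eq h1)
    · exact Or.inr (cpt_eq h1)

end SEL

open Pool.Agent.TRD.CEO SEL in
theorem t_SEL : S_SEL := by
  intro α _ _ C hex
  obtain ⟨S, hS⟩ : ∃ S : Finset α, ∀ o, o ∈ S ↔ Fintype.card α ≤ 2 * (cpt C o).card :=
    ⟨univ.filter fun o => Fintype.card α ≤ 2 * (cpt C o).card, fun o => by simp⟩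
  have hne : S.Nonempty := by
    obtain ⟨o, ho⟩ := hex
    exact ⟨o, (hS o).2 ho⟩
  obtain ⟨o, hoS, hmax⟩ := exists_max_image S (fun o => (ctr C o).card) hne
  have ho := (hS o).1 hoS
  obtain ⟨o', ho', htwo⟩ := two C o ho
  have hctr : ∀ (q : α) (Y : Finset α), (∀ b, b ∈ Y ↔ b ∈ cpt C q ∧ Cen C b) → Y = ctr C q := by
    intro q Y hY
    ext b
    rw [hY, mem_ctr]
  refine ⟨o, ctr C o, ho, fun b => mem_ctr, ?_, ?_, ?_⟩
  · have hsub : Kd C ⊆ ctr C o ∪ ctr C o' := by
      intro b hb
      rw [mem_Kd] at hb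
      rw [mem_union, mem_ctr, mem_ctr]
      rcases htwo b hb.1 with h | h
      · exact Or.inl ⟨h ▸ self_mem C b, hb.2⟩
      · exact Or.inr ⟨h ▸ self_mem C b, hb.2⟩
    have h1 := (card_le_card hsub).trans (card_union_le _ _)
    have h2 := hmax o' ((hS o').2 ho')
    omega
  · intro q Y hq hY
    rw [hctr q Y hY]
    exact hmax q ((hS q).2 hq)
  · have hsub : {Y : Finset α | ∃ s, IsAut C s ∧ Y = im s (ctr C o)} ⊆ {ctr C o, ctr C o'} := by
      rintro Y ⟨s, hs, rfl⟩
      have h1 : im s (ctr C o) = ctr C (s o) := by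
        ext y
        have e : s (s⁻¹ y) = y := s.apply_symm_apply y
        rw [mem_im, mem_ctr, mem_ctr, ← cpt_perm hs, ← Cen_perm hs, e]
      have h2 : Fintype.card α ≤ 2 * (cpt C (s o)).card := by
        rw [cpt_card hs]
        exact ho
      rw [h1, Set.mem_insert_iff, Set.mem_singleton_iff]
      rcases htwo (s o) h2 with h | h
      · exact Or.inl (ctr_eq h)
      · exact Or.inr (ctr_eq h)
    have h3 := Set.ncard_le_ncard hsub (Set.toFinite _)
    have h4 := Set.ncard_insert_le (ctr C o) {ctr C o'}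
    rw [Set.ncard_singleton] at h4
    omega

end Pool.Agent.TRE
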