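import Pool.Agent.TRE.St

/-!
# TRE, module STA: the start of the exploration
-/

set_option autoImplicit false

namespace Pool.Agent.TRE

open Finset Pool.Agent.Lib_helper61.SwitchBasic Pool.Agent.TRC Pool.Agent.TRB Pool.Agent.TRD

namespace STA

variable {α : Type}

/-- the two parts -/
def prt (u v : α) : Fin 2 → Finset α := fun i => if i = 0 then {u} else {v}

lemma prt_zero (u v : α) : prt u v 0 = {u} := rfl

lemma prt_one (u v : α) : prt u v 1 = {v} := rfl

lemma im_single (s : Equiv.Perm α) (u : α) : im s {u} = {s u} := by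
  unfold im
  rw [map_singleton]
  rfl

lemma im_prt (s : Equiv.Perm α) (u v : α) : (fun i => im s (prt u v i)) = prt (s u) (s v) := by
  funext i
  fin_cases i
  · exact im_single s u
  · exact im_single s v

end STA

theorem t_STA : S_STA := by
  intro α _ _ C K hK x hx y hy hxy
  refine ⟨STA.prt x y, fun i => ?_, fun i j hij => ?_, fun z => ?_, ?_⟩
  · fin_cases i
    · exact Or.inl ⟨x, hx, rfl⟩
    · exact Or.inl ⟨y, hy, rfl⟩
  · have h1 : Disjoint ({x} : Finset α) {y} := disjoint_singleton.2 hxy
    fin_cases i <;> fin_cases j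
    · exact absurd rfl hij
    · exact h1
    · exact h1.symm
    · exact absurd rfl hij
  · rw [Fin.exists_fin_two, STA.prt_zero, STA.prt_one, mem_insert, mem_singleton, mem_singleton]
  · have h1 : {Φ : Fin 2 → Finset α | ∃ s, IsAut C s ∧ Φ = fun i => im s (STA.prt x y i)} ⊆
        (((K ×ˢ K).image fun q : α × α => STA.prt q.1 q.2 : Finset (Fin 2 → Finset α)) :
          Set (Fin 2 → Finset α)) := by
      rintro Φ ⟨s, hs, rfl⟩
      rw [mem_coe, mem_image]
      exact ⟨(s x, s y), mem_product.2 ⟨(hK s hs x).2 hx, (hK s hs y).2 hy⟩,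
        (STA.im_prt s x y).symm⟩
    refine (Set.ncard_le_ncard h1 (Finset.finite_toSet _)).trans ?_
    rw [Set.ncard_coe_finset]
    refine card_image_le.trans ?_
    rw [card_product, pow_two]

end Pool.Agent.TRE
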