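import Pool.Agent.TRE.St

/-!
# TRE: one step of the exploration (STP)
-/

set_option autoImplicit false

namespace Pool.Agent.TRE

open Finset Pool.Agent.Lib_helper61.SwitchBasic Pool.Agent.TRC Pool.Agent.TRB Pool.Agent.TRD

namespace STP

variable {α : Type} {C : SimpleGraph α} {K U : Finset α}

theorem mem_nbo {x w : α} : w ∈ nbo C K U x ↔ w ∈ K ∧ w ∉ U ∧ C.Adj x w := by
  classical
  simp [nbo]

theorem mem_bd {x : α} : x ∈ bd C K U ↔ x ∈ U ∧ (nbo C K U x).Nonempty := by
  classical
  simp [bd]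

/-- at most two outside neighbours -/
theorem le_two {u v : α} (h3 : (nbo C K ∅ u).card ≤ 3) (hv : v ∈ U) (hvK : v ∈ K)
    (huv : C.Adj u v) : (nbo C K U u).card ≤ 2 := by
  classical
  have h1 : nbo C K U u ⊆ (nbo C K ∅ u).erase v := by
    intro w hw
    obtain ⟨a, b, c⟩ := mem_nbo.1 hw
    refine mem_erase.2 ⟨?_, mem_nbo.2 ⟨a, notMem_empty _, c⟩⟩
    rintro rfl
    exact b hv
  have h2 : v ∈ nbo C K ∅ u := mem_nbo.2 ⟨hvK, notMem_empty _, huv⟩
  have h4 := card_le_card h1
  rw [card_erase_of_mem h2] at h4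
  omega

end STP

open STP in
theorem t_STP (hA1 : S_AD1) (hA2 : S_AD2) (hB : S_BDY) (hO : S_OTH) : S_STP := by
  intro α _ _ C K X hinv hXK hcl hdeg U k q hUX hUn hF hbd
  have hUK : U ⊆ K := fun u hu => hXK (hUX hu)
  obtain ⟨b1, b2, b3⟩ := hB α C K U hUK
  by_cases hone : ∃ x ∈ U, (nbo C K U x).card = 1
  · -- one forced vertex
    obtain ⟨x, hx, hc⟩ := hone
    obtain ⟨w, hw⟩ := card_eq_one.1 hc
    have hwm : w ∈ nbo C K U x := by rw [hw]; exact mem_singleton_self w
    obtain ⟨hwK, hwU, hxw⟩ := mem_nbo.1 hwm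
    have hwX : w ∈ X := hcl x (hUX hx) w hwK hxw
    have hF1 := hA1 α C K hinv U k q hF x hx (by rw [hw]; exact Or.inl ⟨w, hwK, rfl⟩)
    have hU' : U ∪ nbo C K U x = insert w U := by
      rw [hw]
      ext a
      simp
    rw [hU'] at hF1
    refine ⟨insert w U, k + 1, 0, ssubset_insert hwU, ?_, ?_, ?_, ?_⟩
    · intro a ha
      rcases mem_insert.1 ha with rfl | ha
      · exact hwX
      · exact hUX ha
    · intro a ha
      rcases mem_insert.1 ha with rfl | ha
      · exact ⟨x, mem_insert_of_mem hx, hxw.symm⟩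
      · obtain ⟨v, hv, hav⟩ := hUn a ha
        exact ⟨v, mem_insert_of_mem hv, hav⟩
    · rw [pow_zero, one_mul]
      exact hF1
    · have h1 := b1 w (hdeg w hwX).2
      rw [card_insert_of_notMem hwU]
      omega
  · push Not at hone
    have h2 : ∀ u ∈ U, (nbo C K U u).card ≤ 2 := by
      intro u hu
      obtain ⟨v, hv, huv⟩ := hUn u hu
      exact le_two (hdeg u (hUX hu)).2 hv (hUK hv) huv
    have hex : ∀ u ∈ bd C K U, (nbo C K U u).card = 2 := by
      intro u hu
      obtain ⟨hu1, hu2⟩ := mem_bd.1 hu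
      have := card_pos.2 hu2
      have := hone u hu1
      have := h2 u hu1
      omega
    obtain ⟨x, hxb⟩ := hbd
    have hx : x ∈ U := (mem_bd.1 hxb).1
    obtain ⟨y, z, hyz, hn⟩ := card_eq_two.1 (hex x hxb)
    have hym : y ∈ nbo C K U x := by rw [hn]; exact mem_insert_self _ _
    have hzm : z ∈ nbo C K U x := by rw [hn]; exact mem_insert_of_mem (mem_singleton_self _)
    obtain ⟨hyK, hyU, hxy⟩ := mem_nbo.1 hym
    obtain ⟨hzK, hzU, hxz⟩ := mem_nbo.1 hzm
    have hyX : y ∈ X := hcl x (hUX hx) y hyK hxy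
    have hzX : z ∈ X := hcl x (hUX hx) z hzK hxz
    have hsub : U ⊆ U ∪ {y, z} := subset_union_left
    have hyU2 : y ∈ U ∪ {y, z} := mem_union_right _ (mem_insert_self _ _)
    have hzU2 : z ∈ U ∪ {y, z} := mem_union_right _ (mem_insert_of_mem (mem_singleton_self _))
    have hcase : ∀ a, a ∈ U ∪ {y, z} → a ∈ U ∨ a = y ∨ a = z := by
      intro a ha
      rcases mem_union.1 ha with h | h
      · exact Or.inl h
      · rcases mem_insert.1 h with h | h
        · exact Or.inr (Or.inl h)
        · exact Or.inr (Or.inr (mem_singleton.1 h))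
    have hss : U ⊂ U ∪ {y, z} := by
      refine (ssubset_iff_of_subset hsub).2 ⟨y, hyU2, hyU⟩
    have hcard : (U ∪ {y, z}).card = U.card + 2 := by
      rw [card_union_of_disjoint, card_pair hyz]
      rw [disjoint_right]
      intro a ha
      rcases mem_insert.1 ha with h | h
      · rw [h]; exact hyU
      · rw [mem_singleton.1 h]; exact hzU
    have hX2 : U ∪ {y, z} ⊆ X := by
      intro a ha
      rcases hcase a ha with h | h | h
      · exact hUX h
      · rw [h]; exact hyX
      · rw [h]; exact hzX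
    have hn2 : ∀ u ∈ U ∪ {y, z}, ∃ v ∈ U ∪ {y, z}, C.Adj u v := by
      intro a ha
      rcases hcase a ha with h | h | h
      · obtain ⟨v, hv, hav⟩ := hUn a h
        exact ⟨v, hsub hv, hav⟩
      · exact ⟨x, hsub hx, by rw [h]; exact hxy.symm⟩
      · exact ⟨x, hsub hx, by rw [h]; exact hxz.symm⟩
    -- a lost vertex is adjacent only to y and z
    have hlost : ∀ u ∈ bd C K U, u ∉ bd C K (U ∪ {y, z}) → nbo C K U u ⊆ {y, z} := by
      intro u hu hu' w hw
      obtain ⟨hwK, hwU, huw⟩ := mem_nbo.1 hw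
      by_contra hwn
      refine hu' (mem_bd.2 ⟨hsub (mem_bd.1 hu).1, w, mem_nbo.2 ⟨hwK, ?_, huw⟩⟩)
      intro h
      rcases mem_union.1 h with h | h
      · exact hwU h
      · exact hwn h
    by_cases htw : ∀ w ∈ K, w ≠ y → w ≠ z → (C.Adj y w ↔ C.Adj z w)
    · -- twins
      have hF1 := hA1 α C K hinv U k q hF x hx
        (by rw [hn]; exact Or.inr ⟨y, hyK, z, hzK, hyz, rfl, htw⟩)
      rw [hn] at hF1
      refine ⟨U ∪ {y, z}, k + 1, 0, hss, hX2, hn2, ?_, ?_⟩
      · rw [pow_zero, one_mul]
        exact hF1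
      · have h1 := b2 y z (hdeg y hyX).2 (by
          intro u hu hu'
          obtain ⟨w, hw⟩ := (mem_bd.1 hu).2
          have h3 := hlost u hu hu' hw
          obtain ⟨hwK, hwU, huw⟩ := mem_nbo.1 hw
          have huU := (mem_bd.1 hu).1
          rcases mem_insert.1 h3 with h | h
          · rw [h] at huw
            exact huw
          · rw [mem_singleton.1 h] at huw
            refine ((htw u (hUK huU) ?_ ?_).2 huw.symm).symm
            · rintro rfl
              exact hyU huU
            · rintro rfl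
              exact hzU huU)
        rw [hcard]
        omega
    · have hF2 := hA2 α C K hinv U k q hF x hx y z hyz hn
      by_cases hBc : ¬ C.Adj y z ∧ ∀ u ∈ U, u ≠ x → ¬ C.Adj u y ∧ ¬ C.Adj u z
      · refine ⟨U ∪ {y, z}, k + 2, 1, hss, hX2, hn2, ?_, ?_⟩
        · rw [pow_one]
          exact hF2
        · have h1 := b3 x hx y z hyz hn (hdeg y hyX).1 (hdeg z hzX).1 hBc.1 hBc.2
          rw [hcard]
          omega
      · have hor : C.Adj y z ∨ ∃ u ∈ U, u ≠ x ∧ (C.Adj u y ∨ C.Adj u z) := by
          by_contra hcon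
          push Not at hcon
          exact hBc ⟨hcon.1, hcon.2⟩
        obtain ⟨v, hv, hvc⟩ := hO α C K U hUK x hx y z hyz hn hone h2 (hdeg y hyX).2
          (hdeg z hzX).2 htw hor
        obtain ⟨w, hw⟩ := card_eq_one.1 hvc
        have hwm : w ∈ nbo C K (U ∪ {y, z}) v := by rw [hw]; exact mem_singleton_self w
        obtain ⟨hwK, hwU, hvw⟩ := mem_nbo.1 hwm
        have hwX : w ∈ X := hcl v (hX2 hv) w hwK hvw
        have hF3 := hA1 α C K hinv (U ∪ {y, z}) (k + 2) (2 * q) hF2 v hv
          (by rw [hw]; exact Or.inl ⟨w, hwK, rfl⟩)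
        have hU' : U ∪ {y, z} ∪ nbo C K (U ∪ {y, z}) v = insert w (U ∪ {y, z}) := by
          rw [hw]
          ext a
          simp only [mem_union, mem_insert, mem_singleton]
          tauto
        rw [hU'] at hF3
        refine ⟨insert w (U ∪ {y, z}), k + 2 + 1, 1,
          hss.trans_subset (subset_insert _ _), ?_, ?_, ?_, ?_⟩
        · intro a ha
          rcases mem_insert.1 ha with rfl | ha
          · exact hwX
          · exact hX2 ha
        · intro a ha
          rcases mem_insert.1 ha with rfl | ha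
          · exact ⟨v, mem_insert_of_mem hv, hvw.symm⟩
          · obtain ⟨v', hv', hav⟩ := hn2 a ha
            exact ⟨v', mem_insert_of_mem hv', hav⟩
        · rw [pow_one]
          exact hF3
        · have h1 := b2 y z (hdeg y hyX).2 (by
            intro u hu hu'
            have h3 := hlost u hu hu'
            have h4 : nbo C K U u = {y, z} :=
              eq_of_subset_of_card_le h3 (by rw [card_pair hyz, hex u hu])
            have h5 : y ∈ nbo C K U u := by rw [h4]; exact mem_insert_self _ _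
            exact (mem_nbo.1 h5).2.2)
          have h6 := (hB α C K (U ∪ {y, z}) (fun a ha => hXK (hX2 ha))).1 w (hdeg w hwX).2
          rw [card_insert_of_notMem hwU, hcard]
          omega

end Pool.Agent.TRE
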