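import Pool.Agent.TRE.St
import Pool.Agent.TRD.MCEO

/-!
Project TRE, module TGT: edges at the branches.
-/

set_option autoImplicit false

namespace Pool.Agent.TRE

open Finset Pool.Agent.Lib_helper61.SwitchBasic Pool.Agent.TRC Pool.Agent.TRB Pool.Agent.TRD

open Pool.Agent.TRD.CEO in
theorem t_TGT : TRD.S_SUB → S_TGT := by
  intro hS α _ _ C
  refine ⟨?_, ?_⟩
  · intro b _ v hv hvb w h
    exact stay hv hvb h
  · intro b hb w hbw
    have hcb := (mem_Kd.1 hb).2
    have hpb := (mem_Kd.1 hb).1
    have hself : b ∈ cpt C b := mem_cpt.2 (SimpleGraph.Reachable.refl _)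
    have hw : w ∈ cpt C b := mem_cpt.2 hbw.reachable
    rcases hS α C b with ⟨c, hco, _, hs⟩ | ⟨_, h2, h3, _⟩
    · left
      have hbc : b = c := by
        by_contra hne
        refine hcb c (fun e => hne e.symm) ?_
        rw [mem_Td, cpt_eq hco]
        exact ⟨hself, Or.inr (hs b hself hne)⟩
      subst hbc
      exact mem_Td.2 ⟨hw, Or.inr (hs w hw hbw.ne')⟩
    · obtain ⟨b', hb', hcb', hwb'⟩ := h2 w hw
      by_cases hwe : w = b'
      · right
        subst hwe
        refine mem_Kd.2 ⟨?_, hcb'⟩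
        rw [cpt_eq hw]
        exact hpb
      · left
        have hb1 : b ∈ Td C b' := stay hwb' hwe hbw.symm
        have hb2 : b ∈ Td C b := mem_Td.2 ⟨hself, Or.inl rfl⟩
        by_cases hbb : b = b'
        · rw [hbb]
          exact hwb'
        · exact absurd hb1 (Finset.disjoint_left.1 (h3 b hself b' hb' hcb hcb' hbb) hb2)

end Pool.Agent.TRE
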