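import Pool.Agent.TRE.Core2
import Pool.Agent.TRE.MGLU
import Pool.Agent.TRE.MBND
import Pool.Agent.TRE.MAD1
import Pool.Agent.TRE.MAD2
import Pool.Agent.TRE.MSTA
import Pool.Agent.TRE.MBDY
import Pool.Agent.TRE.MOTH
import Pool.Agent.TRE.MSTP
import Pool.Agent.TRE.MEXP
import Pool.Agent.TRE.MNUM
import Pool.Agent.TRE.MCON
import Pool.Agent.TRE.MTGT
import Pool.Agent.TRE.MSEL

/-!
# TRE (MP_e73337_co): subcubic graphs, and graphs whose blocks are small, or subcubic, or have few automorphisms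
-/

set_option autoImplicit false

namespace Pool.Agent.TRE

open Finset Pool.Agent.Lib_helper61.SwitchBasic Pool.Agent.TRC Pool.Agent.TRB Pool.Agent.TRD

theorem exp : S_EXP := t_EXP t_STA (t_STP t_AD1 t_AD2 t_BDY t_OTH)

theorem core_all {α : Type} [Fintype α] [DecidableEq α] (C : SimpleGraph α)
    (hA : ∀ σ, IsClassAut C σ → IsAut C σ) (hp : 64 < Fintype.card α)
    (hX : ∀ X : Finset α, 3 ≤ X.card → (∀ x ∈ X, (C.induce {v | v ∈ X ∧ v ≠ x}).Connected) →
      16 * X.card ^ 2 < Fintype.card α ∨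
      8 * Nat.card (C.induce {v | v ∈ X} ≃g C.induce {v | v ∈ X}) < 2 ^ (X.card - X.card / 2) ∨
      (650 ≤ X.card ∧ ∀ x ∈ X, (nbo C X ∅ x).card ≤ 3)) :
    TRC.AllRec C :=
  core2 (t_BND t_GLU) exp t_NUM t_CON (t_TGT sub) t_SEL C hA hp hX

/-- **Blocks.** Class automorphisms are automorphisms, and every vertex set `X` with `C[X - x]` connected for all
`x ∈ X` is small, or has few automorphisms, or is large and subcubic. -/
theorem blocks {α : Type} [Fintype α] [DecidableEq α] (C : SimpleGraph α)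
    (hA : ∀ σ, IsClassAut C σ → IsAut C σ) (hp : 64 < Fintype.card α)
    (hX : ∀ X : Finset α, 3 ≤ X.card → (∀ x ∈ X, (C.induce {v | v ∈ X ∧ v ≠ x}).Connected) →
      16 * X.card ^ 2 < Fintype.card α ∨
      8 * Nat.card (C.induce {v | v ∈ X} ≃g C.induce {v | v ∈ X}) < 2 ^ (X.card - X.card / 2) ∨
      (650 ≤ X.card ∧ ∀ x ∈ X, {w | w ∈ X ∧ C.Adj x w}.ncard ≤ 3)) :
    TRC.AllRec C := by
  refine core_all C hA hp fun X h1 h2 => ?_
  rcases hX X h1 h2 with h | h | ⟨h3, h4⟩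
  · exact Or.inl h
  · exact Or.inr (Or.inl h)
  · refine Or.inr (Or.inr ⟨h3, fun x hx => ?_⟩)
    have h5 := h4 x hx
    have h6 : {w | w ∈ X ∧ C.Adj x w} = (nbo C X ∅ x : Set α) := by
      ext w
      simp [mem_nbo]
    rwa [h6, Set.ncard_coe_finset] at h5

/-- **Subcubic graphs**, connected or not. -/
theorem subcubic {α : Type} [Fintype α] [DecidableEq α] (C : SimpleGraph α)
    (hd : ∀ v, (C.neighborSet v).ncard ≤ 3) (hp : 6739216 < Fintype.card α) : TRC.AllRec C :=
  subcubic_core (fun C hA hp hX => core_all C hA hp hX) C hd (by norm_num; exact hp)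

end Pool.Agent.TRE
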