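import Pool.Agent.TRE.StG
import Pool.Agent.TRD.Fin
import Pool.Agent.TRD.MCEO

/-!
# TRE: assembly (blocks that are small, or subcubic, or have few automorphisms)
-/

set_option autoImplicit false

namespace Pool.Agent.TRE

open Finset Pool.Agent.Lib_helper61.SwitchBasic Pool.Agent.Lib_helper61.SwMain Pool.Agent.TRC
open Pool.Agent.TRB Pool.Agent.TRD

theorem nbo_mem {α : Type} {C : SimpleGraph α} {K U : Finset α} {x w : α} :
    w ∈ nbo C K U x ↔ w ∈ K ∧ w ∉ U ∧ C.Adj x w := by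
  classical
  simp [nbo]

/-- Every block is small, or subcubic, or has few automorphisms. -/
theorem core (hSUB : TRD.S_SUB) (hTW0 : TRD.S_TW0) (hCEO : TRD.S_CEO) (hCMP : TRD.S_CMP)
    (hBND : S_BND) (hEXP : S_EXP) (hNUM : S_NUM) (hCON : S_CON) (hTGT : S_TGT) (hBG2 : S_BG2)
    (hSEL : S_SEL) (hAUT : S_AUT) {α : Type} [Fintype α] [DecidableEq α]
    (hp : 132 ≤ Fintype.card α) (C : SimpleGraph α) (hA : ∀ σ, IsClassAut C σ → IsAut C σ)
    (hX : ∀ X : Finset α, 3 ≤ X.card → (∀ x ∈ X, (C.induce {v | v ∈ X ∧ v ≠ x}).Connected) →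
      32 * X.card ^ 2 < Fintype.card α ∨ (650 ≤ X.card ∧ ∀ x ∈ X, (nbo C X ∅ x).card ≤ 3) ∨
      64 * Nat.card (C.induce {v | v ∈ X} ≃g C.induce {v | v ∈ X}) ^ 2 < 2 ^ X.card) :
    TRB.AllRec C := by
  intro t t' hdeck
  by_contra hne
  obtain ⟨⟨m, hm⟩, h0⟩ := four_dvd hdeck hne
  have h4 : Fintype.card α ≠ 4 := by omega
  apply hne
  rcases hCMP α C (by omega) with ⟨h3, hs⟩ | ho
  · exact main_comps h4 h3 hs hA t (by rw [sw_sw, symmDiff_self, Finset.bot_eq_empty, sw_empty])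
      hdeck
  obtain ⟨o, X, hoX, hXc, hKd, hmax, him⟩ := hSEL α C ho
  have hXK : X ⊆ Kd C := by
    intro b hb
    obtain ⟨h1, h2⟩ := (hXc b).1 hb
    rw [CEO.mem_Kd]
    exact ⟨by rw [CEO.cpt_eq h1]; exact hoX, h2⟩
  by_cases hbig : 3 ≤ X.card ∧ Fintype.card α ≤ 32 * X.card ^ 2
  · obtain ⟨hX3, hXb⟩ := hbig
    have hconn : ∀ x ∈ X, (C.induce {v | v ∈ X ∧ v ≠ x}).Connected := by
      rcases hSUB α C o with ⟨c, hc, hcen, hv⟩ | ⟨-, -, -, h4⟩
      · exfalso
        have hsub : X ⊆ {c} := by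
          intro b hb
          obtain ⟨h1, h2⟩ := (hXc b).1 hb
          rw [mem_singleton]
          by_contra hbc
          refine h2 c (fun e => hbc e.symm) ?_
          rw [CEO.mem_Td, CEO.cpt_eq hc]
          exact ⟨h1, Or.inr (hv b h1 hbc)⟩
        have := card_le_card hsub
        rw [card_singleton] at this
        omega
      · exact h4 X hXc hX3
    have hclosed : ∀ x ∈ X, ∀ w ∈ Kd C, C.Adj x w → w ∈ X := by
      intro x hx w hw hxw
      rw [hXc]
      refine ⟨?_, (CEO.mem_Kd.1 hw).2⟩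
      rw [CEO.mem_cpt]
      exact (CEO.mem_cpt.1 ((hXc x).1 hx).1).trans hxw.reachable
    have hC0 := hCEO α C
    have hT := hTGT α C
    rcases hX X hX3 hconn with h | ⟨h650, h3⟩ | h
    · omega
    · obtain ⟨c1, c2⟩ := hCON α C X hX3 hconn
      have hnbo : ∀ x ∈ X, nbo C (Kd C) ∅ x = nbo C X ∅ x := by
        intro x hx
        ext w
        rw [nbo_mem, nbo_mem]
        constructor
        · rintro ⟨h1, h2, h3⟩
          exact ⟨hclosed x hx w h1 h3, h2, h3⟩
        · rintro ⟨h1, h2, h3⟩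
          exact ⟨hXK h1, h2, h3⟩
      have hdeg : ∀ x ∈ X, 2 ≤ (nbo C (Kd C) ∅ x).card ∧ (nbo C (Kd C) ∅ x).card ≤ 3 := by
        intro x hx
        rw [hnbo x hx]
        refine ⟨?_, h3 x hx⟩
        obtain ⟨y, hy, z, hz, hyz, h1, h2⟩ := c1 x hx
        have : ({y, z} : Finset α) ⊆ nbo C X ∅ x := by
          intro w hw
          rw [mem_insert, mem_singleton] at hw
          rw [nbo_mem]
          rcases hw with rfl | rfl
          · exact ⟨hy, notMem_empty _, h1⟩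
          · exact ⟨hz, notMem_empty _, h2⟩
        have h5 := card_le_card this
        rwa [card_pair hyz] at h5
      obtain ⟨k, e, hF, hk⟩ := hEXP α C (Kd C) X hC0.invK hXK hclosed hdeg
        (card_pos.1 (by omega)) c2
      exact hBND α C (Kd C) (Td C) hC0 hT hA X k _ hF (hNUM X.card (Kd C).card k e h650 hKd hk)
        t t' hdeck
    · refine hBND α C (Kd C) (Td C) hC0 hT hA X X.card _ (hAUT α C (Kd C) X hXK him) ?_ t t' hdeck
      calc 16 * (2 * Nat.card (C.induce {v | v ∈ X} ≃g C.induce {v | v ∈ X})) ^ 2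
          = 64 * Nat.card (C.induce {v | v ∈ X} ≃g C.induce {v | v ∈ X}) ^ 2 := by ring
        _ < 2 ^ X.card := h
  · have hyp : ∀ (o' : α) (Y : Finset α), Fintype.card α ≤ 2 * (cpt C o').card →
        (∀ b, b ∈ Y ↔ b ∈ cpt C o' ∧ Cen C b) → 3 ≤ Y.card →
        32 * Y.card ^ 2 < Fintype.card α := by
      intro o' Y h1 h2 h3
      have h5 := hmax o' Y h1 h2
      have h6 : Y.card ^ 2 ≤ X.card ^ 2 := Nat.pow_le_pow_left h5 2
      by_contra h7
      exact hbig ⟨by omega, by omega⟩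
    rcases hBG2 α C hp (by omega) hyp ho with ⟨b₁, hb₁, b₂, hb₂, hb, h1, h2⟩ | ⟨c, hK, hc⟩
    · exact hTW0 α C (Kd C) (Td C) (hCEO α C) hA b₁ hb₁ b₂ hb₂ hb h1 h2 t t' hdeck
    · refine central_vertex h4 C c hc (fun σ hσ => ?_) t t' hdeck
      have h5 := ((hCEO α C).invK σ (hA σ hσ) c).2 (by rw [hK]; exact mem_singleton_self c)
      rw [hK, mem_singleton] at h5
      exact h5

end Pool.Agent.TRE
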