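import Pool.Agent.TRE.StG
import Pool.Agent.TRB.Few

/-!
# TRE: assembly (blocks that are small, or subcubic, or have few automorphisms)
-/

set_option autoImplicit false

namespace Pool.Agent.TRE

open Finset Pool.Agent.Lib_helper61.SwitchBasic Pool.Agent.Lib_helper61.SwMain Pool.Agent.TRC
open Pool.Agent.TRB Pool.Agent.TRD

theorem mem_nbo {α : Type} {C : SimpleGraph α} {K U : Finset α} {x w : α} :
    w ∈ nbo C K U x ↔ w ∈ K ∧ w ∉ U ∧ C.Adj x w := by
  classical
  simp [nbo]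

/-- Every block is small, or subcubic, or has few automorphisms. -/
theorem core2 (hBND : S_BND) (hEXP : S_EXP) (hNUM : S_NUM) (hCON : S_CON) (hTGT : S_TGT)
    (hSEL : S_SEL) {α : Type} [Fintype α] [DecidableEq α] (C : SimpleGraph α)
    (hA : ∀ σ, IsClassAut C σ → IsAut C σ) (hp : 64 < Fintype.card α)
    (hX : ∀ X : Finset α, 3 ≤ X.card → (∀ x ∈ X, (C.induce {v | v ∈ X ∧ v ≠ x}).Connected) →
      16 * X.card ^ 2 < Fintype.card α ∨
      8 * Nat.card (C.induce {v | v ∈ X} ≃g C.induce {v | v ∈ X}) < 2 ^ (X.card - X.card / 2) ∨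
      (650 ≤ X.card ∧ ∀ x ∈ X, (nbo C X ∅ x).card ≤ 3)) :
    TRC.AllRec C := by
  intro t t' hdeck
  by_contra hne
  obtain ⟨⟨m, hm⟩, h0⟩ := four_dvd hdeck hne
  have h4 : Fintype.card α ≠ 4 := by omega
  apply hne
  rcases t_CMP α C (by omega) with ⟨h3, hs⟩ | ho'
  · exact main_comps h4 h3 hs hA t (by rw [sw_sw, symmDiff_self, Finset.bot_eq_empty, sw_empty])
      hdeck
  obtain ⟨o, X, ho, hXm, hKd, -, -⟩ := hSEL α C ho'
  rcases centre C o with ⟨c, hc⟩ | ⟨X', hXm', h2, hconn, hcov⟩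
  · refine cut_general C hA c (Or.inr ?_) t t' hdeck
    rw [hc]
    nlinarith
  have hXX : X' = X := by
    ext b
    rw [hXm', hXm]
  subst hXX
  have hsmall : 16 * X'.card ^ 2 < Fintype.card α → Nonempty (sw C t ≃g sw C t') := by
    intro h5
    obtain ⟨b, -, hb⟩ := TRB.num_family X' (Td C) (cpt C o).card (Fintype.card α) hcov (by
      have h6 : 16 * X'.card ^ 2 * Fintype.card α < Fintype.card α * Fintype.card α :=
        Nat.mul_lt_mul_of_pos_right h5 (by omega)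
      have h7 : Fintype.card α * Fintype.card α ≤
          (2 * (cpt C o).card) * (2 * (cpt C o).card) := Nat.mul_le_mul ho ho
      nlinarith)
    exact cut_general C hA b (Or.inr hb) t t' hdeck
  rcases Nat.lt_or_ge X'.card 3 with h | h
  · have h6 : X'.card = 2 := by omega
    apply hsmall
    rw [h6]
    omega
  rcases hX X' h (hconn h) with h7 | h7 | ⟨h650, h3⟩
  · exact hsmall h7
  · obtain ⟨s₁, hs₁, h8⟩ := FEW.centre_two C o X' hXm ho
    exact FEW.few2 C X' hA s₁ hs₁ h8 h7 t t' hdeck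
  -- a large subcubic centre
  have hXK : X' ⊆ Kd C := by
    intro b hb
    obtain ⟨h1, h2⟩ := (hXm b).1 hb
    rw [CEO.mem_Kd]
    exact ⟨by rw [CEO.cpt_eq h1]; exact ho, h2⟩
  have hclosed : ∀ x ∈ X', ∀ w ∈ Kd C, C.Adj x w → w ∈ X' := by
    intro x hx w hw hxw
    rw [hXm]
    refine ⟨?_, (CEO.mem_Kd.1 hw).2⟩
    rw [CEO.mem_cpt]
    exact (CEO.mem_cpt.1 ((hXm x).1 hx).1).trans hxw.reachable
  have hC0 := t_CEO sub α C
  obtain ⟨c1, c2⟩ := hCON α C X' h (hconn h)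
  have hnbo : ∀ x ∈ X', nbo C (Kd C) ∅ x = nbo C X' ∅ x := by
    intro x hx
    ext w
    rw [mem_nbo, mem_nbo]
    constructor
    · rintro ⟨h1, h2, h3⟩
      exact ⟨hclosed x hx w h1 h3, h2, h3⟩
    · rintro ⟨h1, h2, h3⟩
      exact ⟨hXK h1, h2, h3⟩
  have hdeg : ∀ x ∈ X', 2 ≤ (nbo C (Kd C) ∅ x).card ∧ (nbo C (Kd C) ∅ x).card ≤ 3 := by
    intro x hx
    rw [hnbo x hx]
    refine ⟨?_, h3 x hx⟩
    obtain ⟨y, hy, z, hz, hyz, h1, h2⟩ := c1 x hx
    have : ({y, z} : Finset α) ⊆ nbo C X' ∅ x := by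
      intro w hw
      rw [mem_insert, mem_singleton] at hw
      rw [mem_nbo]
      rcases hw with rfl | rfl
      · exact ⟨hy, notMem_empty _, h1⟩
      · exact ⟨hz, notMem_empty _, h2⟩
    have h5 := card_le_card this
    rwa [card_pair hyz] at h5
  obtain ⟨k, e, hF, hk⟩ := hEXP α C (Kd C) X' hC0.invK hXK hclosed hdeg
    (card_pos.1 (by omega)) c2
  exact hBND α C (Kd C) (Td C) hC0 (hTGT α C) hA X' k _ hF
    (hNUM X'.card (Kd C).card k e h650 hKd hk) t t' hdeck

/-- Graphs of maximum degree at most three. -/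
theorem subcubic_core (h : ∀ {α : Type} [Fintype α] [DecidableEq α] (C : SimpleGraph α)
      (_ : ∀ σ, IsClassAut C σ → IsAut C σ) (_ : 64 < Fintype.card α)
      (_ : ∀ X : Finset α, 3 ≤ X.card → (∀ x ∈ X, (C.induce {v | v ∈ X ∧ v ≠ x}).Connected) →
      16 * X.card ^ 2 < Fintype.card α ∨
      8 * Nat.card (C.induce {v | v ∈ X} ≃g C.induce {v | v ∈ X}) < 2 ^ (X.card - X.card / 2) ∨
      (650 ≤ X.card ∧ ∀ x ∈ X, (nbo C X ∅ x).card ≤ 3)), TRC.AllRec C)
    {α : Type} [Fintype α] [DecidableEq α] (C : SimpleGraph α)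
    (hd : ∀ v, (C.neighborSet v).ncard ≤ 3) (hp : 16 * 649 ^ 2 < Fintype.card α) :
    TRC.AllRec C := by
  classical
  refine h C (deg_aut C fun v => ?_) (by omega) fun X _ _ => ?_
  · have := hd v
    omega
  · rcases Nat.lt_or_ge X.card 650 with h1 | h1
    · left
      have h2 : X.card ^ 2 ≤ 649 ^ 2 := Nat.pow_le_pow_left (by omega) 2
      omega
    · right
      right
      refine ⟨h1, fun x _ => ?_⟩
      have h2 : (nbo C X ∅ x : Set α) ⊆ C.neighborSet x := by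
        intro w hw
        exact (mem_nbo.1 (Finset.mem_coe.1 hw)).2.2
      have h3 := Set.ncard_le_ncard h2 (Set.toFinite _)
      rw [Set.ncard_coe_finset] at h3
      exact h3.trans (hd x)

end Pool.Agent.TRE
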