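import Pool.Agent.TRE.St

/-!
# TRE, module AUT: few automorphisms
-/

set_option autoImplicit false

namespace Pool.Agent.TRE

open Finset Pool.Agent.Lib_helper61.SwitchBasic Pool.Agent.TRC Pool.Agent.TRB Pool.Agent.TRD

namespace AUT

theorem im_sing {α : Type} [DecidableEq α] (s : Equiv.Perm α) (x : α) :
    im s ({x} : Finset α) = {s x} := by
  ext y
  rw [mem_im, mem_singleton, mem_singleton]
  constructor
  · intro h
    rw [← h]
    simp
  · intro h
    rw [h]
    simp

theorem finiteIso {α : Type} [Finite α] {β : Type} [Finite β] (G : SimpleGraph α)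
    (H : SimpleGraph β) : Finite (G ≃g H) :=
  Finite.of_injective (fun g : G ≃g H => (g : α → β)) DFunLike.coe_injective

theorem mem_im_apply {α : Type} [DecidableEq α] {s : Equiv.Perm α} {S : Finset α} {x : α} :
    s x ∈ im s S ↔ x ∈ S := by
  rw [mem_im]
  simp

end AUT

open AUT in
theorem t_AUT : S_AUT := by
  classical
  intro α _ _ C K X hXK h2
  haveI : Finite (C.induce {v | v ∈ X} ≃g C.induce {v | v ∈ X}) := finiteIso _ _
  -- a parametrisation of `X`
  let e : Fin X.card ≃ {x // x ∈ X} := X.equivFin.symm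
  refine ⟨fun i => {(e i : α)}, fun i => Or.inl ⟨e i, hXK (e i).2, rfl⟩, ?_, ?_, ?_⟩
  · intro i j hij
    rw [disjoint_singleton]
    intro h
    exact hij (e.injective (Subtype.ext h))
  · intro x
    constructor
    · intro hx
      refine ⟨e.symm ⟨x, hx⟩, ?_⟩
      simp
    · rintro ⟨i, hi⟩
      rw [mem_singleton] at hi
      rw [hi]
      exact (e i).2
  · -- the images
    set S2 : Set (Finset α) := {Y : Finset α | ∃ s, IsAut C s ∧ Y = im s X} with hS2
    have hch : ∀ Y : Finset α, ∃ s : Equiv.Perm α, Y ∈ S2 → IsAut C s ∧ Y = im s X := by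
      intro Y
      by_cases hY : Y ∈ S2
      · obtain ⟨s, h1, h2⟩ := hY
        exact ⟨s, fun _ => ⟨h1, h2⟩⟩
      · exact ⟨1, fun h => absurd h hY⟩
    choose s₀ hs₀ using hch
    let F : Finset α × (C.induce {v | v ∈ X} ≃g C.induce {v | v ∈ X}) → (Fin X.card → Finset α) :=
      fun p i => {s₀ p.1 ((p.2 ⟨(e i : α), (e i).2⟩ : {v | v ∈ X}) : α)}
    have hsub : {Φ : Fin X.card → Finset α | ∃ s, IsAut C s ∧
        Φ = fun i => im s ({(e i : α)} : Finset α)} ⊆ F '' (S2 ×ˢ (Set.univ : Set
          (C.induce {v | v ∈ X} ≃g C.induce {v | v ∈ X}))) := by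
      rintro Φ ⟨s, hs, rfl⟩
      have hY : im s X ∈ S2 := ⟨s, hs, rfl⟩
      obtain ⟨h01, h02⟩ := hs₀ (im s X) hY
      -- the automorphism of the induced graph
      have hmem : ∀ x, x ∈ X ↔ (s₀ (im s X))⁻¹ (s x) ∈ X := by
        intro x
        rw [← mem_im (s := s₀ (im s X)), ← h02, mem_im_apply]
      let g0 : {v | v ∈ X} ≃ {v | v ∈ X} :=
        { toFun := fun x => ⟨(s₀ (im s X))⁻¹ (s x), (hmem x).1 x.2⟩
          invFun := fun x => ⟨s⁻¹ (s₀ (im s X) x), by
            have := (hmem (s⁻¹ (s₀ (im s X) x))).2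
            apply this
            simpa using x.2⟩
          left_inv := fun x => Subtype.ext (by simp)
          right_inv := fun x => Subtype.ext (by simp) }
      let g : C.induce {v | v ∈ X} ≃g C.induce {v | v ∈ X} :=
        { toEquiv := g0
          map_rel_iff' := by
            intro x y
            change C.Adj ((s₀ (im s X))⁻¹ (s x)) ((s₀ (im s X))⁻¹ (s y)) ↔ C.Adj (x : α) (y : α)
            rw [← hs x y, ← h01 ((s₀ (im s X))⁻¹ (s x)) ((s₀ (im s X))⁻¹ (s y))]
            simp }
      refine ⟨(im s X, g), ⟨hY, Set.mem_univ _⟩, ?_⟩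
      funext i
      change ({s₀ (im s X) ((s₀ (im s X))⁻¹ (s (e i : α)))} : Finset α) = im s {(e i : α)}
      rw [im_sing]
      simp
    calc _ ≤ (F '' (S2 ×ˢ (Set.univ : Set
          (C.induce {v | v ∈ X} ≃g C.induce {v | v ∈ X})))).ncard :=
          Set.ncard_le_ncard hsub (Set.toFinite _)
      _ ≤ (S2 ×ˢ (Set.univ : Set
          (C.induce {v | v ∈ X} ≃g C.induce {v | v ∈ X}))).ncard := Set.ncard_image_le (Set.toFinite _)
      _ = S2.ncard * Nat.card (C.induce {v | v ∈ X} ≃g C.induce {v | v ∈ X}) := by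
          rw [Set.ncard_prod, Set.ncard_univ]
      _ ≤ _ := Nat.mul_le_mul_right _ h2

end Pool.Agent.TRE
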