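import Pool.Agent.TRE.St
import Pool.Agent.TRD.MBIG

/-!
# TRE, module BG2 (helper73): two large branches, with the hypothesis on the centres only
-/

set_option autoImplicit false

namespace Pool.Agent.TRE

open Finset Pool.Agent.Lib_helper61.SwitchBasic Pool.Agent.TRC Pool.Agent.TRB Pool.Agent.TRD

namespace BG2

theorem sq_lt {p m : ℕ} (h132 : 132 ≤ p) (hyp : 3 ≤ m → 32 * m ^ 2 < p) (h2 : 2 ≤ m) :
    32 * m ^ 2 < p := by
  rcases Nat.lt_or_ge m 3 with h | h
  · have h4 : m = 2 := by omega
    rw [h4]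
    omega
  · exact hyp h

end BG2

open TRD.BIG in
theorem t_BG2 : TRD.S_SUB → S_BG2 := by
  classical
  intro hSUB α _ _ C h132 h4 hyp ho
  obtain ⟨o, ho⟩ := ho
  set X : Finset α := univ.filter fun b => b ∈ cpt C o ∧ Cen C b with hXd
  have hX : ∀ b, b ∈ X ↔ b ∈ cpt C o ∧ Cen C b := by
    intro b
    simp [hXd]
  have hXK : X ⊆ Kd C := by
    intro b hb
    obtain ⟨h1, h2⟩ := (hX b).1 hb
    exact mem_Kd.2 ⟨by rw [cpt_eq h1]; exact ho, h2⟩
  by_cases hA : ∀ v, Fintype.card α ≤ 2 * (cpt C v).card → v ∈ cpt C o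
  · have hKX : Kd C = X := by
      refine Finset.Subset.antisymm ?_ hXK
      intro b hb
      obtain ⟨h1, h2⟩ := mem_Kd.1 hb
      exact (hX b).2 ⟨hA b h1, h2⟩
    rcases alt hSUB o X hX with ⟨c, hc, hT, hv⟩ | ⟨h2, key, h3⟩
    · right
      refine ⟨c, by rw [hKX, hc], fun x hx => ?_⟩
      by_cases hxo : x ∈ cpt C o
      · have h5 := hv x hxo hx
        have h6 : (cpt C o).card ≤ Fintype.card α := Finset.card_le_univ _
        omega
      · have h5 : ¬ Fintype.card α ≤ 2 * (cpt C x).card := fun h => hxo (hA x h)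
        have h6 := Finset.card_le_card (blk_sub (C := C) c x)
        omega
    · left
      have hsq := BG2.sq_lt h132 (hyp o X ho hX) h2
      rcases key (4 * (Kd C).card) with ⟨b₁, hb₁, b₂, hb₂, h⟩ | h
      · exact ⟨b₁, hXK hb₁, b₂, hXK hb₂, h⟩
      · exfalso
        rw [hKX] at h
        have h5 : (X.card - 1) * (4 * X.card) ≤ X.card * (4 * X.card) :=
          Nat.mul_le_mul_right _ (Nat.sub_le _ _)
        have h6 : X.card * (4 * X.card) = 4 * X.card ^ 2 := by ring
        omega
  · push Not at hA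
    obtain ⟨o', ho', hoo⟩ := hA
    left
    set Y : Finset α := univ.filter fun b => b ∈ cpt C o' ∧ Cen C b with hYd
    have hY : ∀ b, b ∈ Y ↔ b ∈ cpt C o' ∧ Cen C b := by
      intro b
      simp [hYd]
    have hYK : Y ⊆ Kd C := by
      intro b hb
      obtain ⟨h1, h2⟩ := (hY b).1 hb
      exact mem_Kd.2 ⟨by rw [cpt_eq h1]; exact ho', h2⟩
    have hdis := cpt_disj hoo
    have hcard : (cpt C o ∪ cpt C o').card = (cpt C o).card + (cpt C o').card :=
      Finset.card_union_of_disjoint hdis
    have hle : (cpt C o ∪ cpt C o').card ≤ Fintype.card α := Finset.card_le_univ _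
    have huniv : cpt C o ∪ cpt C o' = univ := by
      apply Finset.eq_univ_of_card
      omega
    have hKle : Kd C ⊆ X ∪ Y := by
      intro b hb
      obtain ⟨-, h2⟩ := mem_Kd.1 hb
      have h3 : b ∈ cpt C o ∪ cpt C o' := by rw [huniv]; exact Finset.mem_univ b
      rcases Finset.mem_union.1 h3 with h | h
      · exact Finset.mem_union_left _ ((hX b).2 ⟨h, h2⟩)
      · exact Finset.mem_union_right _ ((hY b).2 ⟨h, h2⟩)
    have hKcard : (Kd C).card ≤ X.card + Y.card :=
      (Finset.card_le_card hKle).trans (Finset.card_union_le _ _)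
    rcases alt hSUB o X hX with ⟨c, hc, hT, hv⟩ | ⟨h2, key, h3⟩
    · rcases alt hSUB o' Y hY with ⟨c', hc', hT', hv'⟩ | ⟨h2', key', h3'⟩
      · have hcX : c ∈ X := by rw [hc]; exact Finset.mem_singleton_self c
        have hcY : c' ∈ Y := by rw [hc']; exact Finset.mem_singleton_self c'
        have h5 : (Kd C).card ≤ 2 := by
          rw [hc, hc', Finset.card_singleton, Finset.card_singleton] at hKcard
          exact hKcard
        refine ⟨c, hXK hcX, c', hYK hcY, ?_, ?_, ?_⟩
        · intro h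
          rw [h] at hcX
          exact (Finset.disjoint_left.1 hdis) ((hX c').1 hcX).1 ((hY c').1 hcY).1
        · rw [hT]; omega
        · rw [hT']; omega
      · refine caseB (Y := X) hYK (by omega) ho' h2' (BG2.sq_lt h132 (hyp o' Y ho' hY) h2') (Or.inl ?_) key'
        rw [hc, Finset.card_singleton]
    · refine caseB (Y := Y) hXK hKcard ho h2 (BG2.sq_lt h132 (hyp o X ho hX) h2) ?_ key
      rcases alt hSUB o' Y hY with ⟨c', hc', hT', hv'⟩ | ⟨h2', key', h3'⟩
      · left
        rw [hc', Finset.card_singleton]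
      · exact Or.inr (BG2.sq_lt h132 (hyp o' Y ho' hY) h2')

end Pool.Agent.TRE
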