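import Pool.Agent.TRE.St
import Pool.Agent.TRD.MCEO

/-!
# TRE, module MAX (helper87): a centre with at least three vertices is a block
-/

set_option autoImplicit false

namespace Pool.Agent.TRE

open Finset Pool.Agent.Lib_helper61.SwitchBasic Pool.Agent.TRC Pool.Agent.TRB Pool.Agent.TRD

namespace MAX

/-- A walk that avoids `b` and starts in `Td C b` stays in `Td C b`. -/
theorem walk {α : Type} [Fintype α] {C : SimpleGraph α} {b : α} {Y : Finset α}
    (p q : {w | w ∈ Y ∧ w ≠ b}) (W : (C.induce {w | w ∈ Y ∧ w ≠ b}).Walk p q) :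
    (p : α) ∈ Td C b → (q : α) ∈ Td C b := by
  induction W with
  | nil => exact id
  | @cons u v w h _ ih =>
    intro hp
    have hb : (u : α) ≠ b := u.2.2
    have hadj : C.Adj (u : α) (v : α) := h
    exact ih (TRD.CEO.stay hp hb hadj)

end MAX

theorem t_MAX : TRD.S_SUB → S_MAX := by
  intro hS α _ _ C o X hX h3
  rcases hS α C o with ⟨c, hco, hcen, hs⟩ | ⟨-, h2, h3', h4⟩
  · exfalso
    have hall : ∀ b ∈ X, b = c := by
      intro b hb
      obtain ⟨hbo, hbc⟩ := (hX b).1 hb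
      by_contra hne
      refine hbc c (Ne.symm hne) ?_
      rw [TRD.CEO.mem_Td, TRD.CEO.cpt_eq hco]
      exact ⟨hbo, Or.inr (hs b hbo hne)⟩
    have h5 : X.card ≤ 1 := Finset.card_le_one.2 fun a ha b hb => (hall a ha).trans (hall b hb).symm
    omega
  · refine ⟨h4 X hX h3, ?_⟩
    intro Y hXY hY
    obtain ⟨v, hvY, hvX⟩ := Finset.exists_of_ssubset hXY
    have hsub : X ⊆ Y := hXY.1
    -- the vertex is in the component
    have hvc : v ∈ cpt C o := by
      obtain ⟨y, hy, x, hx, hyx⟩ := Finset.one_lt_card.1 (by omega : 1 < X.card)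
      have hvy : v ≠ y := fun e => hvX (e ▸ hy)
      obtain ⟨W⟩ := (hY y (hsub hy)).preconnected ⟨x, hsub hx, Ne.symm hyx⟩ ⟨v, hvY, hvy⟩
      have h6 : C.Reachable x v :=
        ⟨W.map (SimpleGraph.Embedding.induce {w | w ∈ Y ∧ w ≠ y}).toHom⟩
      exact TRD.CEO.mem_cpt.2 ((TRD.CEO.mem_cpt.1 ((hX x).1 hx).1).trans h6)
    obtain ⟨b, hbo, hbc, hvb⟩ := h2 v hvc
    have hbX : b ∈ X := (hX b).2 ⟨hbo, hbc⟩
    have hne : v ≠ b := fun e => hvX (e ▸ hbX)
    obtain ⟨x, hx, hxb⟩ := Finset.exists_mem_ne (by omega : 1 < X.card) b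
    obtain ⟨hxo, hxc⟩ := (hX x).1 hx
    obtain ⟨W⟩ := (hY b (hsub hbX)).preconnected ⟨v, hvY, hne⟩ ⟨x, hsub hx, hxb⟩
    have h7 : x ∈ Td C b := MAX.walk _ _ W hvb
    have h8 : x ∈ Td C x := TRD.CEO.mem_Td.2 ⟨TRD.CEO.mem_cpt.2 (SimpleGraph.Reachable.refl _),
      Or.inl rfl⟩
    exact Finset.disjoint_left.1 (h3' b hbo x hxo hbc hxc (Ne.symm hxb)) h7 h8

end Pool.Agent.TRE
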