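import Pool.Agent.TRD.St

/-!
# TRE (MP_e73337_co): blocks that are small, or subcubic, or have few automorphisms

Extension of `Pool/Agent/TRB` (helper85) and `Pool/Agent/TRD` (helper94). Every `S_xxx` is proved in the file
`Pool/Agent/TRE/Mxxx.lean` as `theorem t_xxx : S_xxx` (namespace `Pool.Agent.TRE`), with other statements as
hypotheses where the doc string says so. `im s S` is the image of a set (`mem_im`, `im_mul`, `im_one` in
`TRC/Grp.lean`), `mem_AA`, `mul_AA`, `inv_AA` in `TRC/App.lean`; `mem_cpt`, `mem_Td`, `mem_Kd`, `stay`, ... in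
`TRD/MCEO.lean` (namespace `CEO`), which may be imported where useful, as may every proved `TRD/Mxxx`, `TRB/Mxxx`.
-/

set_option autoImplicit false

namespace Pool.Agent.TRE

open Finset Pool.Agent.Lib_helper61.SwitchBasic Pool.Agent.TRC Pool.Agent.TRB Pool.Agent.TRD

/-- Edges at the branches. -/
structure Tight {α : Type} (C : SimpleGraph α) (K : Finset α) (T : α → Finset α) : Prop where
  edge : ∀ b ∈ K, ∀ v ∈ T b, v ≠ b → ∀ w, C.Adj v w → w ∈ T b
  nb : ∀ b ∈ K, ∀ w, C.Adj b w → w ∈ T b ∨ w ∈ K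

/-- One root, or two roots with the same neighbours in `K` except for each other. -/
def OkPart {α : Type} [DecidableEq α] (C : SimpleGraph α) (K P : Finset α) : Prop :=
  (∃ y ∈ K, P = {y}) ∨ ∃ y ∈ K, ∃ z ∈ K, y ≠ z ∧ P = {y, z} ∧
    ∀ w ∈ K, w ≠ y → w ≠ z → (C.Adj y w ↔ C.Adj z w)

/-- `U` is the union of `k` disjoint parts, and the family of the parts has at most `q` images under the
automorphisms of `C`. -/
def Fam {α : Type} [DecidableEq α] (C : SimpleGraph α) (K U : Finset α) (k q : ℕ) : Prop :=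
  ∃ P : Fin k → Finset α, (∀ i, OkPart C K (P i)) ∧ (∀ i j, i ≠ j → Disjoint (P i) (P j)) ∧
    (∀ x, x ∈ U ↔ ∃ i, x ∈ P i) ∧
    {Φ : Fin k → Finset α | ∃ s, IsAut C s ∧ Φ = fun i => im s (P i)}.ncard ≤ q

/-! ## Exploration -/

open Classical in
/-- The neighbours of `x` in `K` outside `U`. -/
noncomputable def nbo {α : Type} (C : SimpleGraph α) (K U : Finset α) (x : α) : Finset α :=
  K.filter fun w => w ∉ U ∧ C.Adj x w

open Classical in
/-- The boundary of `U`: its vertices with a neighbour in `K` outside `U`. -/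
noncomputable def bd {α : Type} (C : SimpleGraph α) (K U : Finset α) : Finset α :=
  U.filter fun x => (nbo C K U x).Nonempty

/-- AD1. PROOF. Append `W = nbo C K U x` to the family `P` (`Fin.snoc`). Disjoint: `W` is outside `U`. The image
of `W` is determined by the images of the `P i`: let `s`, `s'` be automorphisms with `im s (P i) = im s' (P i)` for
all `i`, so `im s U = im s' U`. Let `x ∈ P i`. `s' x ∈ im s (P i)`, so `s' x = s x'` with `x' ∈ P i`, and
`nbo C K U x' = nbo C K U x` (`x' = x`, or twins; the `w ∈ K` outside `U` are not in `P i`). `im s W` is the set of the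
`w ∈ K` outside `im s U` adjacent to `s x` (`invK`); so `im s' W` = the `w ∈ K` outside `im s U` adjacent to
`s x'`, which is `im s (nbo C K U x') = im s W`. So restriction to the first `k` parts is injective on the new set of
images, and maps into the old one. -/
def S_AD1 : Prop :=
  ∀ (α : Type) [Fintype α] [DecidableEq α] (C : SimpleGraph α) (K : Finset α),
    (∀ s, IsAut C s → ∀ x, s x ∈ K ↔ x ∈ K) → ∀ (U : Finset α) (k q : ℕ), Fam C K U k q →
    ∀ x ∈ U, OkPart C K (nbo C K U x) → Fam C K (U ∪ nbo C K U x) (k + 1) q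

/-- AD2. PROOF. Append the parts `{y}` and `{z}`. As in AD1 (which does not use that `W = {y, z}` is `OkPart` for
this) the image of `W = {y, z}` is determined by the images of the `P i`, so for given images of the `P i` there
are at most two possibilities for `(im s {y}, im s {z})`. So at most `2 q` images (`Finset.card_le_mul_card_image`
or a map to `images × Bool`). -/
def S_AD2 : Prop :=
  ∀ (α : Type) [Fintype α] [DecidableEq α] (C : SimpleGraph α) (K : Finset α),
    (∀ s, IsAut C s → ∀ x, s x ∈ K ↔ x ∈ K) → ∀ (U : Finset α) (k q : ℕ), Fam C K U k q →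
    ∀ x ∈ U, ∀ y z, y ≠ z → nbo C K U x = {y, z} → Fam C K (U ∪ {y, z}) (k + 2) (2 * q)

/-- STA. PROOF. The parts `{x}`, `{y}`; the images `({s x}, {s y})` are given by two elements of `K`. -/
def S_STA : Prop :=
  ∀ (α : Type) [Fintype α] [DecidableEq α] (C : SimpleGraph α) (K : Finset α),
    (∀ s, IsAut C s → ∀ x, s x ∈ K ↔ x ∈ K) → ∀ x ∈ K, ∀ y ∈ K, x ≠ y →
    Fam C K {x, y} 2 (K.card ^ 2)

/-- BDY. Boundaries. PROOF. (1) a vertex of `bd U` which is not in `bd (insert w U)` is adjacent to `w`; `w` has at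
most three neighbours in `K`. (2) in the same way. (3) `bd (U ∪ {y, z})` contains `(bd U).erase x` (their outside
neighbours are not `y`, `z`) and `y`, `z` (they have a neighbour in `K` other than `x`, which is not in `U` and
not `z`, `y`). -/
def S_BDY : Prop :=
  ∀ (α : Type) [Fintype α] [DecidableEq α] (C : SimpleGraph α) (K U : Finset α), U ⊆ K →
    (∀ w, (nbo C K ∅ w).card ≤ 3 → (bd C K U).card ≤ (bd C K (insert w U)).card + 3) ∧
    (∀ y z, (nbo C K ∅ y).card ≤ 3 →
      (∀ u ∈ bd C K U, u ∉ bd C K (U ∪ {y, z}) → C.Adj u y) →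
      (bd C K U).card ≤ (bd C K (U ∪ {y, z})).card + 3) ∧
    (∀ x ∈ U, ∀ y z, y ≠ z → nbo C K U x = {y, z} → 2 ≤ (nbo C K ∅ y).card → 2 ≤ (nbo C K ∅ z).card →
      ¬ C.Adj y z → (∀ u ∈ U, u ≠ x → ¬ C.Adj u y ∧ ¬ C.Adj u z) →
      (bd C K U).card + 1 ≤ (bd C K (U ∪ {y, z})).card)

/-- OTH. If `y`, `z` are no twins and have a further edge to `U ∪ {y, z}`, then a vertex has exactly one outside
neighbour after they are added. PROOF. Let `U' = U ∪ {y, z}` and suppose that no vertex of `U'` has exactly one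
outside neighbour. Every `u ∈ U` adjacent to `y` or `z` is adjacent to both: `u` had exactly two outside
neighbours (`≠ 1`, `≤ 2`, not 0), one of them is gone, so both, so they are `y` and `z`. So `y` and `z` have the same
neighbours in `U`, among them `x`. Now `y` has a further neighbour in `U'` (`z`, or by the last hypothesis and
the symmetry some `u ∈ U`, `u ≠ x`), so at most one outside neighbour, so none; the same for `z`. So `y`, `z` are
twins, contradiction. -/
def S_OTH : Prop :=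
  ∀ (α : Type) [Fintype α] [DecidableEq α] (C : SimpleGraph α) (K U : Finset α), U ⊆ K →
    ∀ x ∈ U, ∀ y z, y ≠ z → nbo C K U x = {y, z} →
    (∀ u ∈ U, (nbo C K U u).card ≠ 1) → (∀ u ∈ U, (nbo C K U u).card ≤ 2) →
    (nbo C K ∅ y).card ≤ 3 → (nbo C K ∅ z).card ≤ 3 →
    (¬ ∀ w ∈ K, w ≠ y → w ≠ z → (C.Adj y w ↔ C.Adj z w)) →
    (C.Adj y z ∨ ∃ u ∈ U, u ≠ x ∧ (C.Adj u y ∨ C.Adj u z)) →
    ∃ v ∈ U ∪ {y, z}, (nbo C K (U ∪ {y, z}) v).card = 1

/-- STP (prove `theorem t_STP : S_AD1 → S_AD2 → S_BDY → S_OTH → S_STP`). One step. PROOF. `U ⊆ X ⊆ K`; the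
outside neighbours of `u ∈ U` are in `X` (closed), and there are at most two of them (at most three neighbours
in `K`, one of them in `U`). (F) If some `x ∈ U` has exactly one outside neighbour `w`: AD1 (`{w}` is `OkPart`),
`U' = insert w U`, `k' = k + 1`, `e = 0`, `|bd U| ≤ |bd U'| + 3` by BDY (1): `1 ≤ 15 - 6`. Otherwise take
`x ∈ bd U`; it has exactly two outside neighbours `y ≠ z`. (T) `y`, `z` have the same neighbours in `K` except for
each other: AD1, `k' = k + 1`, `e = 0`, BDY (2) (a lost vertex is adjacent to `y` or `z`, so to `y`): `2 ≤ 15 - 6`. (B)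
not adjacent and no neighbours in `U` except `x`: AD2, `k' = k + 2`, `e = 1`, BDY (3): `30 + 2 ≤ 30 + 2`. (O)
otherwise: AD2, then by OTH a vertex of `U ∪ {y, z}` has exactly one outside neighbour `w`, AD1:
`U' = insert w (U ∪ {y, z})`, `k' = k + 3`, `e = 1`, BDY (2) (a lost vertex had exactly two outside neighbours, so
`y` and `z`) and BDY (1): `30 + 3 ≤ 45 - 12`. The new vertices have a neighbour in `U'`. -/
def S_STP : Prop :=
  ∀ (α : Type) [Fintype α] [DecidableEq α] (C : SimpleGraph α) (K X : Finset α),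
    (∀ s, IsAut C s → ∀ x, s x ∈ K ↔ x ∈ K) → X ⊆ K → (∀ x ∈ X, ∀ w ∈ K, C.Adj x w → w ∈ X) →
    (∀ x ∈ X, 2 ≤ (nbo C K ∅ x).card ∧ (nbo C K ∅ x).card ≤ 3) →
    ∀ (U : Finset α) (k q : ℕ), U ⊆ X → (∀ u ∈ U, ∃ v ∈ U, C.Adj u v) → Fam C K U k q →
    (bd C K U).Nonempty →
    ∃ (U' : Finset α) (k' e : ℕ), U ⊂ U' ∧ U' ⊆ X ∧ (∀ u ∈ U', ∃ v ∈ U', C.Adj u v) ∧
      Fam C K U' k' (2 ^ e * q) ∧
      15 * k + 30 * e + 2 * (bd C K U).card + U'.card ≤ 15 * k' + 2 * (bd C K U').card + U.card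

/-- EXP (prove `theorem t_EXP : S_STA → S_STP → S_EXP`). PROOF. Start with an edge `x y` of `X` (STA): `U = {x, y}`,
`k = 2`, `e = 0`. By STP and induction on `|X \ U|` keep `|U| + 28 + 30 e ≤ 15 k + 2 |bd U|` and
`Fam C K U k (2 ^ e * |K| ^ 2)`; the boundary is not empty if `U ≠ X` (connectedness hypothesis). For `U = X` the
boundary is empty (closed). -/
def S_EXP : Prop :=
  ∀ (α : Type) [Fintype α] [DecidableEq α] (C : SimpleGraph α) (K X : Finset α),
    (∀ s, IsAut C s → ∀ x, s x ∈ K ↔ x ∈ K) → X ⊆ K → (∀ x ∈ X, ∀ w ∈ K, C.Adj x w → w ∈ X) →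
    (∀ x ∈ X, 2 ≤ (nbo C K ∅ x).card ∧ (nbo C K ∅ x).card ≤ 3) → X.Nonempty →
    (∀ U ⊆ X, U.Nonempty → U ≠ X → ∃ u ∈ U, ∃ w ∈ X, w ∉ U ∧ C.Adj u w) →
    ∃ k e : ℕ, Fam C K X k (2 ^ e * K.card ^ 2) ∧ X.card + 28 + 30 * e ≤ 15 * k

/-- NUM. PROOF. `k = 2 e + j`, `15 j ≥ m + 28`, so `j ≥ 46`; `16 (2 ^ e n ^ 2) ^ 2 ≤ 4 ^ e * 256 m ^ 4`, and
`256 m ^ 4 ≤ 256 (15 j - 28) ^ 4 < 2 ^ j` for `j ≥ 46` (induction: `256 * 662 ^ 4 < 2 ^ 46`). -/
def S_NUM : Prop :=
  ∀ m n k e : ℕ, 650 ≤ m → n ≤ 2 * m → m + 28 + 30 * e ≤ 15 * k →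
    16 * (2 ^ e * n ^ 2) ^ 2 < 2 ^ k

/-- CON. PROOF. First part: `X` without some `z ≠ x` is connected with at least two vertices, so `x` has a neighbour
`y ∈ X`; `X` without `y` also, so `x` has a neighbour in `X` other than `y`. Second part: one of `U`, `X \ U` has at
least two elements; take `z` in it; `X` without `z` is connected and meets both, so there is an edge between them
(`SimpleGraph.Walk.exists_boundary_dart`). -/
def S_CON : Prop :=
  ∀ (α : Type) [Fintype α] [DecidableEq α] (C : SimpleGraph α) (X : Finset α), 3 ≤ X.card →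
    (∀ x ∈ X, (C.induce {v | v ∈ X ∧ v ≠ x}).Connected) →
    (∀ x ∈ X, ∃ y ∈ X, ∃ z ∈ X, y ≠ z ∧ C.Adj x y ∧ C.Adj x z) ∧
    ∀ U ⊆ X, U.Nonempty → U ≠ X → ∃ u ∈ U, ∃ w ∈ X, w ∉ U ∧ C.Adj u w

/-! ## The centres -/

/-- TGT (prove `theorem t_TGT : TRD.S_SUB → S_TGT`). PROOF. `edge` is `TRD.CEO.stay`. `nb`: `b ∈ Kd C`, `C.Adj b w`, so `w` is
in the component of `b`. SUB with `o = b`. First alternative, vertex `c`: `b = c` (all others are in `Td C c`), and
`w ∈ Td C c`. Second alternative: `w ∈ Td C b'` with `b'` in the component, `Cen C b'`. If `w = b'` then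
`w ∈ Kd C`. Otherwise `b ∈ Td C b'` (`stay`), `b ∈ Td C b`, so `b = b'` by (iii). -/
def S_TGT : Prop :=
  ∀ (α : Type) [Fintype α] [DecidableEq α] (C : SimpleGraph α), Tight C (Kd C) (Td C)

/-- BG2 (prove `theorem t_BG2 : TRD.S_SUB → S_BG2`): as `TRD.t_BIG` (copy `TRD/MBIG.lean`), with the hypothesis on the
centres only. -/
def S_BG2 : Prop :=
  ∀ (α : Type) [Fintype α] [DecidableEq α] (C : SimpleGraph α), 132 ≤ Fintype.card α →
    Fintype.card α % 4 = 0 →
    (∀ (o : α) (X : Finset α), Fintype.card α ≤ 2 * (cpt C o).card →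
      (∀ b, b ∈ X ↔ b ∈ cpt C o ∧ Cen C b) → 3 ≤ X.card → 32 * X.card ^ 2 < Fintype.card α) →
    (∃ o, Fintype.card α ≤ 2 * (cpt C o).card) →
    (∃ b₁ ∈ Kd C, ∃ b₂ ∈ Kd C, b₁ ≠ b₂ ∧ 4 * (Kd C).card < (Td C b₁).card ∧
      4 * (Kd C).card < (Td C b₂).card) ∨
    ∃ c, Kd C = {c} ∧ ∀ x, x ≠ c → 2 * (blk C c x).card < Fintype.card α

/-- SEL. The largest centre. PROOF. Among the `o` with `p ≤ 2 |cpt C o|` take one for which the centre `X` (the
filter) is largest. If all these `o` are in one component, `Kd C = X` and all images of `X` are `X`. If there is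
`o'` outside `cpt C o`, with centre `X'`, both components have exactly `p / 2` vertices and there are no others, so
`Kd C = X ∪ X'`, `|X'| ≤ |X|`, and the image `im s X` is the centre of the component of `s o` (`TRD.CEO.Cen_perm`,
`cpt_perm`), which has at least half of the vertices, so it is `X` or `X'`. -/
def S_SEL : Prop :=
  ∀ (α : Type) [Fintype α] [DecidableEq α] (C : SimpleGraph α),
    (∃ o, Fintype.card α ≤ 2 * (cpt C o).card) →
    ∃ (o : α) (X : Finset α), Fintype.card α ≤ 2 * (cpt C o).card ∧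
      (∀ b, b ∈ X ↔ b ∈ cpt C o ∧ Cen C b) ∧ (Kd C).card ≤ 2 * X.card ∧
      (∀ (o' : α) (Y : Finset α), Fintype.card α ≤ 2 * (cpt C o').card →
        (∀ b, b ∈ Y ↔ b ∈ cpt C o' ∧ Cen C b) → Y.card ≤ X.card) ∧
      {Y : Finset α | ∃ s, IsAut C s ∧ Y = im s X}.ncard ≤ 2

/-- MAX (prove `theorem t_MAX : TRD.S_SUB → S_MAX`). A centre with at least three vertices is a block. PROOF. `|X| ≥ 3`
excludes the first alternative of SUB (then `X = {c}`). Let `Y ⊃ X`, all `Y - y` connected, `v ∈ Y`, `v ∉ X`. `Y` is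
connected, so `v` is in the component (`Y - y` contains `v` and an element of `X` for suitable `y`). By (ii) `v ∈ Td C b`
with `b ∈ X`, `v ≠ b`. Take `x ∈ X`, `x ≠ b`. In `C` induced on `Y - b` there is a walk from `v` to `x`; by `TRD.CEO.stay` it
stays in `Td C b` (it avoids `b`), so `x ∈ Td C b`, but `x ∈ Td C x`, contradiction to (iii). -/
def S_MAX : Prop :=
  ∀ (α : Type) [Fintype α] [DecidableEq α] (C : SimpleGraph α) (o : α) (X : Finset α),
    (∀ b, b ∈ X ↔ b ∈ cpt C o ∧ Cen C b) → 3 ≤ X.card →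
    (∀ x ∈ X, (C.induce {v | v ∈ X ∧ v ≠ x}).Connected) ∧
    ∀ Y : Finset α, X ⊂ Y → ¬ ∀ y ∈ Y, (C.induce {v | v ∈ Y ∧ v ≠ y}).Connected

/-- AUT. Few automorphisms. PROOF. The parts are the `{x}`, `x ∈ X` (`X.equivFin`), `k = |X|`. The family of the `{s x}` is
determined by the set `Y = im s X` (at most two possibilities) and, for given `Y` and a fixed automorphism `s₀`
with `im s₀ X = Y`, by the automorphism of `C.induce X` given by `s₀⁻¹ s`. -/
def S_AUT : Prop :=
  ∀ (α : Type) [Fintype α] [DecidableEq α] (C : SimpleGraph α) (K X : Finset α), X ⊆ K →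
    {Y : Finset α | ∃ s, IsAut C s ∧ Y = im s X}.ncard ≤ 2 →
    Fam C K X X.card (2 * Nat.card (C.induce {v | v ∈ X} ≃g C.induce {v | v ∈ X}))

end Pool.Agent.TRE
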