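import Pool.Agent.TRE.St
import Pool.Agent.RGP15.Main3

/-!
# TRE (MP_e73337_co): the two statements that use the image bound (`RGP15`, helper15)
-/

set_option autoImplicit false

namespace Pool.Agent.TRE

open Finset Pool.Agent.Lib_helper61.SwitchBasic Pool.Agent.TRC Pool.Agent.TRB Pool.Agent.TRD

/-- GLU. PROOF. Let `M i = (P i).biUnion T`, `τ` a class automorphism, so an automorphism, that preserves all
`M j`, and `κ = τ` on `M i`, the identity elsewhere. (1) `τ` maps `P i` into itself: for `y ∈ P i` (so `y ∈ K`)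
`τ y ∈ M i` (`root`), so `τ y ∈ T z` for some `z ∈ P i`; `τ y ∈ K` (`invK`) and `τ y ∈ T (τ y)`, so `z = τ y`
(`disj`). (2) `κ` is an automorphism (so a class automorphism, with the set `∅`): clear for two vertices of
`M i` and for two outside. Let `u ∈ T y`, `y ∈ P i`, `v ∉ M i`; to show: `C.Adj (τ u) v ↔ C.Adj u v`. If `u ≠ y`,
both are false by `Tight.edge` (`τ u ∈ T (τ y)` by `invT`, `τ u ≠ τ y`, `τ y ∈ P i`). If `u = y`: clear if
`τ y = y`. Otherwise `P i = {y, τ y}` is a pair of the second kind; `C.Adj y v` gives `v ∈ K` (`Tight.nb`, as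
`v ∉ T y`), `v ≠ y, τ y` (they are in `M i`), so `C.Adj (τ y) v`; and conversely. -/
def S_GLU : Prop :=
  ∀ (α : Type) [Fintype α] [DecidableEq α] (C : SimpleGraph α) (K : Finset α) (T : α → Finset α),
    Central0 C K T → Tight C K T → (∀ σ, IsClassAut C σ → IsAut C σ) →
    ∀ (k : ℕ) (P : Fin k → Finset α), (∀ i, OkPart C K (P i)) → (∀ i j, i ≠ j → Disjoint (P i) (P j)) →
    Pool.Agent.RGP15.Glue C (fun i => (P i).biUnion T)

/-- BND (prove `theorem t_BND : S_GLU → S_BND`). PROOF. Suppose `t`, `t'` have the same deck and are not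
isomorphic. Apply `RGP15.image_bound3` to `sw C t`, `sw C t'`, `M i = (P i).biUnion T` (pairwise disjoint by
`disj`, not empty), `J = univ`, `s i = (M i).card` (`Light`: first alternative): `k ≤ 2 * logb 2 (4 * q')`,
`q' = (Images (sw C t) M).ncard`. `Glue (sw C t) M` from `Glue C M` by `RGP15.glue_sw`; `IsClassAut (sw C t) σ` iff
`IsClassAut C σ` (`RGP15.classAut_sw`, `classAut_unsw`). `q' ≤ q`: for an automorphism `s`
`im s (M i) = (im s (P i)).biUnion T` (`invT`), so `Images` is contained in the image of the set of `Fam`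
under `Φ ↦ fun i => (Φ i).biUnion T`. So `2 ^ k ≤ (4 * q) ^ 2 = 16 * q ^ 2`, contradiction. -/
def S_BND : Prop :=
  ∀ (α : Type) [Fintype α] [DecidableEq α] (C : SimpleGraph α) (K : Finset α) (T : α → Finset α),
    Central0 C K T → Tight C K T → (∀ σ, IsClassAut C σ → IsAut C σ) →
    ∀ (U : Finset α) (k q : ℕ), Fam C K U k q → 16 * q ^ 2 < 2 ^ k → TRB.AllRec C

end Pool.Agent.TRE
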